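import Pool.Agent.H385R9.AHDefs
import Pool.Agent.H385R9.AH3

/-!
TEAM Q4, project AH (helper385), task AH11.
-/

open Complex Filter Topology Set MeasureTheory

set_option maxHeartbeats 4000000

namespace H385

open Pool.Agent.H304R3.HK (tc HC CS bb LamK psi bH aH LH Rep)

theorem ah11_nrm_mul (a b : ZI) : nrm (a * b) = nrm a * nrm b := by
  unfold nrm
  rw [Zsqrtd.norm_mul, Int.natAbs_mul]

theorem ah11_irr {a : ZI} (ha : (nrm a).Prime) : Irreducible a := by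
  refine ⟨fun hu => ?_, fun b c h => ?_⟩
  · have h1 : nrm a = 1 := Zsqrtd.norm_eq_one_iff.2 hu
    rw [h1] at ha
    exact Nat.not_prime_one ha
  · rw [h, ah11_nrm_mul, Nat.prime_mul_iff] at ha
    rcases ha with ⟨-, h1⟩ | ⟨-, h1⟩
    · exact Or.inr (Zsqrtd.norm_eq_one_iff.1 h1)
    · exact Or.inl (Zsqrtd.norm_eq_one_iff.1 h1)

theorem ah11_dvd {a q : ZI} (ha : (nrm a).Prime) (h : ¬ IsCoprime a q) : a ∣ q := by
  by_contra hd
  exact h ((ah11_irr ha).coprime_iff_not_dvd.2 hd)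

open Classical in
theorem ah11_inner : ∃ C : ℝ, 0 < C ∧ ∀ (X Y : ℕ) (a : ZI), 1 ≤ X → X ≤ Y → (nrm a).Prime →
    ∑ q ∈ ((BX Y).filter (fun q => X < nrm q)).filter (fun q => ¬ IsCoprime a q),
      1 / (nrm q : ℝ) ≤ 1 / (nrm a : ℝ) * (C * (Real.log ((Y : ℝ) / X) + 1)) := by
  obtain ⟨C, hC, h⟩ := class_sum 1 one_ne_zero
  refine ⟨Real.pi + C, by positivity, ?_⟩
  intro X Y a hX hXY ha
  have hX0 : (0 : ℝ) < X := by exact_mod_cast hX
  have hXY' : (X : ℝ) ≤ Y := by exact_mod_cast hXY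
  have hY0 : (0 : ℝ) < Y := hX0.trans_le hXY'
  have ha0 : a ≠ 0 := (ah11_irr ha).ne_zero
  have hn0 : (0 : ℝ) < nrm a := by exact_mod_cast ha.pos
  have hlog : 0 ≤ Real.log ((Y : ℝ) / X) := Real.log_nonneg ((one_le_div hX0).2 hXY')
  set F' : Finset ZI := (BX Y).filter (fun m => X < nrm (a * m) ∧ nrm (a * m) ≤ Y) with hF'
  have hsub : ((BX Y).filter (fun q => X < nrm q)).filter (fun q => ¬ IsCoprime a q)
      ⊆ F'.image (fun m => a * m) := by
    intro q hq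
    obtain ⟨hq1, hq2⟩ := Finset.mem_filter.1 hq
    obtain ⟨hq3, hq4⟩ := Finset.mem_filter.1 hq1
    obtain ⟨hq5, hq6⟩ := (HG3d_mem_BX Y q).1 hq3
    obtain ⟨m, rfl⟩ := ah11_dvd ha hq2
    refine Finset.mem_image.2 ⟨m, Finset.mem_filter.2 ⟨(HG3d_mem_BX Y m).2 ⟨?_, ?_⟩, hq4, hq6⟩, rfl⟩
    · rintro rfl
      exact hq5 (mul_zero a)
    · rw [ah11_nrm_mul] at hq6
      exact (Nat.le_mul_of_pos_left _ ha.pos).trans hq6
  have h1 := h ((X : ℝ) / nrm a) ((Y : ℝ) / nrm a) 0 F' (by positivity)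
    (div_le_div_of_nonneg_right hXY' hn0.le) (by
      intro j hj
      obtain ⟨hj1, hj2, hj3⟩ := Finset.mem_filter.1 hj
      refine ⟨((HG3d_mem_BX Y j).1 hj1).1, one_dvd _, ?_, ?_⟩
      · rw [div_lt_iff₀ hn0, mul_comm]
        rw [ah11_nrm_mul] at hj2
        exact_mod_cast hj2
      · rw [le_div_iff₀ hn0, mul_comm]
        rw [ah11_nrm_mul] at hj3
        exact_mod_cast hj3)
  have h2 : (nrm (1 : ZI) : ℝ) = 1 := by
    have : nrm (1 : ZI) = 1 := by
      unfold nrm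
      rw [Zsqrtd.norm_one]
      rfl
    rw [this, Nat.cast_one]
  rw [h2, div_one, div_div_div_cancel_right₀ hn0.ne'] at h1
  calc ∑ q ∈ ((BX Y).filter (fun q => X < nrm q)).filter (fun q => ¬ IsCoprime a q),
        1 / (nrm q : ℝ)
      ≤ ∑ q ∈ F'.image (fun m => a * m), 1 / (nrm q : ℝ) :=
        Finset.sum_le_sum_of_subset_of_nonneg hsub fun _ _ _ => by positivity
    _ = ∑ m ∈ F', 1 / (nrm (a * m) : ℝ) :=
        Finset.sum_image fun x _ y _ hxy => mul_left_cancel₀ ha0 hxy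
    _ = 1 / (nrm a : ℝ) * ∑ m ∈ F', 1 / (nrm m : ℝ) := by
        rw [Finset.mul_sum]
        refine Finset.sum_congr rfl fun m _ => ?_
        rw [ah11_nrm_mul, Nat.cast_mul, one_div_mul_one_div]
    _ ≤ 1 / (nrm a : ℝ) * (Real.pi * Real.log ((Y : ℝ) / X) + C) :=
        mul_le_mul_of_nonneg_left h1 (by positivity)
    _ ≤ 1 / (nrm a : ℝ) * ((Real.pi + C) * (Real.log ((Y : ℝ) / X) + 1)) := by
        refine mul_le_mul_of_nonneg_left ?_ (by positivity)
        nlinarith [Real.pi_pos, mul_nonneg hC.le hlog]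

open Classical in
theorem ah11_norms (h8 : ∀ n : ℕ, ((BX n).filter (fun a => nrm a = n)).card ≤ 8 ∨ ¬ n.Prime) :
    ∃ K : ℝ, 0 < K ∧ ∀ N : ℕ,
    ∑ a ∈ (BX N).filter (fun a => (nrm a).Prime), (Real.log (nrm a)) ^ 2 / (nrm a : ℝ) ^ 2
      ≤ K := by
  obtain ⟨K, hK, h⟩ := AE6.sum_logsq
  refine ⟨8 * K, by positivity, ?_⟩
  intro N
  rw [← Finset.sum_fiberwise_of_maps_to (s := (BX N).filter (fun a => (nrm a).Prime))
    (t := Finset.Icc 1 N) (g := nrm) (fun a ha => ?_)]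
  · refine le_trans (Finset.sum_le_sum (g := fun n : ℕ => 8 * ((Real.log n) ^ 2 / (n : ℝ) ^ 2))
      fun n hn => ?_) ?_
    · by_cases hp : n.Prime
      · have h1 : ∀ a ∈ ((BX N).filter (fun a => (nrm a).Prime)).filter (fun a => nrm a = n),
            (Real.log (nrm a)) ^ 2 / (nrm a : ℝ) ^ 2 ≤ (Real.log n) ^ 2 / (n : ℝ) ^ 2 := by
          intro a ha
          rw [(Finset.mem_filter.1 ha).2]
        refine (Finset.sum_le_card_nsmul _ _ _ h1).trans ?_
        rw [nsmul_eq_mul]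
        refine mul_le_mul_of_nonneg_right ?_ (by positivity)
        have h2 := (h8 n).resolve_right (not_not.2 hp)
        have h3 : (((BX N).filter (fun a => (nrm a).Prime)).filter (fun a => nrm a = n)).card
            ≤ ((BX n).filter (fun a => nrm a = n)).card := by
          refine Finset.card_le_card fun a ha => ?_
          obtain ⟨h4, h5⟩ := Finset.mem_filter.1 ha
          exact Finset.mem_filter.2 ⟨(HG3d_mem_BX n a).2
            ⟨((HG3d_mem_BX N a).1 (Finset.mem_filter.1 h4).1).1, h5.le⟩, h5⟩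
        exact_mod_cast h3.trans h2
      · have h1 : ((BX N).filter (fun a => (nrm a).Prime)).filter (fun a => nrm a = n) = ∅ := by
          refine Finset.filter_eq_empty_iff.2 fun a ha h2 => hp ?_
          rw [← h2]
          exact (Finset.mem_filter.1 ha).2
        rw [h1, Finset.sum_empty]
        positivity
    · rw [← Finset.mul_sum]
      exact mul_le_mul_of_nonneg_left (h N) (by norm_num)
  · obtain ⟨h1, h2⟩ := Finset.mem_filter.1 ha
    exact Finset.mem_Icc.2 ⟨h2.one_lt.le, ((HG3d_mem_BX N a).1 h1).2⟩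

open Classical in
theorem ah11_core (h8 : ∀ n : ℕ, ((BX n).filter (fun a => nrm a = n)).card ≤ 8 ∨ ¬ n.Prime)
    (C1 : ℝ) (hC1 : 0 < C1) : ∃ C : ℝ, 0 < C ∧ ∀ (X Y N : ℕ) (T : ℝ) (W : ZI → ℝ),
    1 ≤ X → X ≤ Y → 1 ≤ T → (∀ a, 0 ≤ W a) → (∀ a, ¬ (nrm a).Prime → W a = 0) →
    (∀ a, W a ≤ C1 * T * ((Real.log (nrm a)) ^ 2 / nrm a)) →
    ∑ q ∈ (BX Y).filter (fun q => X < nrm q), (1 / (nrm q : ℝ)) *
      ∑ a ∈ (BX N).filter (fun a => ¬ IsCoprime a q), W a ≤
    C * T * (Real.log ((Y : ℝ) / X) + 1) := by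
  obtain ⟨C, hC, hin⟩ := ah11_inner
  obtain ⟨K, hK, hno⟩ := ah11_norms h8
  refine ⟨C1 * C * K, by positivity, ?_⟩
  intro X Y N T W hX hXY hT hW0 hWp hW
  have hX0 : (0 : ℝ) < X := by exact_mod_cast hX
  have hXY' : (X : ℝ) ≤ Y := by exact_mod_cast hXY
  have hlog : 0 ≤ Real.log ((Y : ℝ) / X) := Real.log_nonneg ((one_le_div hX0).2 hXY')
  set L : ℝ := Real.log ((Y : ℝ) / X) + 1 with hL
  have hL0 : 0 ≤ L := by positivity
  have hswap : ∑ q ∈ (BX Y).filter (fun q => X < nrm q), (1 / (nrm q : ℝ)) *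
      ∑ a ∈ (BX N).filter (fun a => ¬ IsCoprime a q), W a
      = ∑ a ∈ BX N, W a * ∑ q ∈ ((BX Y).filter (fun q => X < nrm q)).filter
        (fun q => ¬ IsCoprime a q), 1 / (nrm q : ℝ) := by
    simp only [Finset.mul_sum, Finset.sum_filter (fun a => ¬ IsCoprime _ _)]
    rw [Finset.sum_congr rfl fun q _ => Finset.sum_filter _ _, Finset.sum_comm]
    refine Finset.sum_congr rfl fun a _ => ?_
    rw [Finset.sum_filter]
    refine Finset.sum_congr rfl fun q _ => ?_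
    split_ifs <;> ring
  rw [hswap]
  have hterm : ∀ a ∈ BX N, W a * ∑ q ∈ ((BX Y).filter (fun q => X < nrm q)).filter
        (fun q => ¬ IsCoprime a q), 1 / (nrm q : ℝ)
      ≤ if (nrm a).Prime then
        C1 * T * (C * L) * ((Real.log (nrm a)) ^ 2 / (nrm a : ℝ) ^ 2) else 0 := by
    intro a _
    split_ifs with hp
    · have h1 := hin X Y a hX hXY hp
      have hn0 : (0 : ℝ) < nrm a := by exact_mod_cast hp.pos
      calc W a * ∑ q ∈ ((BX Y).filter (fun q => X < nrm q)).filter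
            (fun q => ¬ IsCoprime a q), 1 / (nrm q : ℝ)
          ≤ (C1 * T * ((Real.log (nrm a)) ^ 2 / nrm a)) * (1 / (nrm a : ℝ) * (C * L)) :=
            mul_le_mul (hW a) h1 (Finset.sum_nonneg fun _ _ => by positivity) (by positivity)
        _ = _ := by
            field_simp
    · rw [hWp a hp, zero_mul]
  refine (Finset.sum_le_sum hterm).trans ?_
  rw [← Finset.sum_filter, ← Finset.mul_sum]
  calc C1 * T * (C * L) * ∑ a ∈ (BX N).filter (fun a => (nrm a).Prime),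
        (Real.log (nrm a)) ^ 2 / (nrm a : ℝ) ^ 2
      ≤ C1 * T * (C * L) * K := mul_le_mul_of_nonneg_left (hno N) (by positivity)
    _ = C1 * C * K * T * L := by ring

open Classical in
/-- AH11: primes dividing the modulus (uses AH3) -/
theorem cop_loss : ∃ C : ℝ, 0 < C ∧ ∀ (X Y N : ℕ) (T κ u : ℝ), 1 ≤ X → X ≤ Y → 1 ≤ κ → κ ≤ T →
    1 ≤ T → T ≤ Real.exp (κ ^ 2) → 0 ≤ u →
    ∑ q ∈ (BX Y).filter (fun q => X < nrm q), (1 / (nrm q : ℝ)) *
      ∑ a ∈ (BX N).filter (fun a => ¬ IsCoprime a q), ∫ t : ℝ, ‖wQ (bn T u t) a‖ ^ 2 ≤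
    C * T * (Real.log ((Y : ℝ) / X) + 1) := by
  obtain ⟨C1, hC1, hint⟩ := wq_int
  obtain ⟨C, hC, h⟩ := ah11_core (wq_props fun _ => 0).2.2.2.2 C1 hC1
  refine ⟨C, hC, ?_⟩
  intro X Y N T κ u hX hXY hκ hκT hT hTκ _
  exact h X Y N T (fun a => ∫ t : ℝ, ‖wQ (bn T u t) a‖ ^ 2) hX hXY hT
    (fun a => integral_nonneg fun t => by positivity)
    (fun a ha => by
      have h0 : ∀ t : ℝ, wQ (bn T u t) a = 0 := fun t => (wq_props (bn T u t)).1 a ha
      simp only [h0, norm_zero]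
      simp)
    (fun a => (hint T κ u a hκ hκT hT hTκ).2.2)

end H385
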