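import Pool.Agent.H385R9.AHDefs

/-!
TEAM Q4, project AH (helper385), task AH6.
-/

open Complex Filter Topology Set MeasureTheory

set_option maxHeartbeats 4000000

namespace H385

open Pool.Agent.H304R3.HK (tc HC CS bb LamK psi bH aH LH Rep)

theorem ah6_norm (a : ZI) : a.norm = a.re ^ 2 + a.im ^ 2 := by
  rw [Zsqrtd.norm_def]; ring

theorem ah6_nrm (a : ZI) : (nrm a : ℤ) = a.re ^ 2 + a.im ^ 2 := by
  unfold nrm
  rw [ah6_norm, Int.natAbs_of_nonneg (by positivity)]

theorem ah6_bx {N : ℕ} {a : ZI} (h : a ∈ BX N) : a.re ^ 2 + a.im ^ 2 ≤ (N : ℤ) := by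
  unfold BX at h
  rw [Finset.mem_image] at h
  obtain ⟨p, hp, rfl⟩ := h
  rw [Finset.mem_filter] at hp
  exact hp.2.2

theorem ah6_mul (a b : ZI) : nrm (a * b) = nrm a * nrm b := by
  unfold nrm
  rw [Zsqrtd.norm_mul, Int.natAbs_mul]

theorem ah6_pos {d : ZI} (hd : d ≠ 0) : 0 < nrm d := by
  unfold nrm
  rw [Int.natAbs_pos]
  intro h
  apply hd
  exact (GaussianInt.norm_eq_zero).1 h

theorem ah6_count (N : ℕ) (d c : ZI) (hd : d ≠ 0) (F : Finset ZI) (hF : ∀ a ∈ F, a ∈ BX N ∧ d ∣ a - c) :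
    (F.card : ℝ) ≤ 32 * ((N : ℝ) / nrm d + 1) := by
  classical
  have hd0 := ah6_pos hd
  have hd0' : (0 : ℝ) < nrm d := by exact_mod_cast hd0
  rcases F.eq_empty_or_nonempty with h0 | ⟨c0, hc0⟩
  · rw [h0, Finset.card_empty]
    have : (0 : ℝ) ≤ (N : ℝ) / nrm d := by positivity
    push_cast
    linarith
  · have hz : ∀ a : ZI, ∃ z : ZI, a ∈ F → a = c0 + d * z := by
      intro a
      by_cases ha : a ∈ F
      · obtain ⟨z, hz⟩ := dvd_sub (hF a ha).2 (hF c0 hc0).2
        refine ⟨z, fun _ => ?_⟩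
        rw [← hz]; ring
      · exact ⟨0, fun h => absurd h ha⟩
    choose z hz using hz
    set R : ℕ := 4 * N / nrm d with hR
    set s : ℕ := Nat.sqrt R with hs
    have hmem : ∀ a ∈ F, z a ∈ ((Finset.Icc (-(s : ℤ)) s ×ˢ Finset.Icc (-(s : ℤ)) s).image
        (fun p : ℤ × ℤ => (⟨p.1, p.2⟩ : ZI))) := by
      intro a ha
      have h1 := ah6_bx (hF a ha).1
      have h2 := ah6_bx (hF c0 hc0).1
      have h3 : nrm (a - c0) ≤ 4 * N := by
        have h4 := ah6_nrm (a - c0)
        rw [Zsqrtd.re_sub, Zsqrtd.im_sub] at h4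
        have : (nrm (a - c0) : ℤ) ≤ 4 * N := by
          rw [h4]
          nlinarith [sq_nonneg (a.re + c0.re), sq_nonneg (a.im + c0.im)]
        exact_mod_cast this
      have h5 : a - c0 = d * z a := by
        conv_lhs => rw [hz a ha]
        ring
      rw [h5, ah6_mul] at h3
      have h6 : nrm (z a) ≤ R := by
        rw [hR, Nat.le_div_iff_mul_le hd0, mul_comm]
        exact h3
      have h7 := ah6_nrm (z a)
      have h8 : (z a).re ^ 2 ≤ (R : ℤ) := by
        have : (nrm (z a) : ℤ) ≤ R := by exact_mod_cast h6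
        nlinarith [sq_nonneg (z a).im]
      have h9 : (z a).im ^ 2 ≤ (R : ℤ) := by
        have : (nrm (z a) : ℤ) ≤ R := by exact_mod_cast h6
        nlinarith [sq_nonneg (z a).re]
      have key : ∀ t : ℤ, t ^ 2 ≤ (R : ℤ) → t ∈ Finset.Icc (-(s : ℤ)) s := by
        intro t ht
        have h10 : t.natAbs ≤ s := by
          rw [hs, Nat.le_sqrt]
          have h17 : ((t.natAbs * t.natAbs : ℕ) : ℤ) ≤ R := by
            rw [Nat.cast_mul, Int.natAbs_mul_self', ← sq]
            exact ht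
          exact_mod_cast h17
        rw [Finset.mem_Icc]
        omega
      rw [Finset.mem_image]
      exact ⟨((z a).re, (z a).im), Finset.mem_product.2 ⟨key _ h8, key _ h9⟩, rfl⟩
    have hinj : Set.InjOn z (F : Set ZI) := by
      intro a ha b hb hab
      rw [hz a ha, hz b hb, hab]
    have h11 := Finset.card_le_card_of_injOn z hmem hinj
    have h12 : F.card ≤ (2 * s + 1) ^ 2 := by
      refine h11.trans (Finset.card_image_le.trans ?_)
      rw [Finset.card_product, Int.card_Icc]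
      have : ((s : ℤ) + 1 - -(s : ℤ)).toNat = 2 * s + 1 := by omega
      rw [this, sq]
    have h13 : s * s ≤ R := Nat.sqrt_le R
    have h14 : (R : ℝ) ≤ 4 * ((N : ℝ) / nrm d) := by
      have : (R : ℝ) ≤ ((4 * N : ℕ) : ℝ) / nrm d := Nat.cast_div_le
      rw [← mul_div_assoc]
      exact_mod_cast this
    have h15 : (F.card : ℝ) ≤ (2 * s + 1) ^ 2 := by exact_mod_cast h12
    have h16 : (s : ℝ) * s ≤ R := by exact_mod_cast h13
    nlinarith [sq_nonneg (2 * (s : ℝ) - 1)]

open Classical in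
/-- AH6: number of points in a residue class -/
theorem class_count : ∃ C : ℝ, 0 < C ∧ ∀ (d c : ZI) (N : ℕ), d ≠ 0 →
    (((BX N).filter (fun a => d ∣ a - c)).card : ℝ) ≤ C * ((N : ℝ) / nrm d + 1) := by
  refine ⟨32, by norm_num, fun d c N hd => ?_⟩
  exact ah6_count N d c hd _ (fun a ha => Finset.mem_filter.1 ha)

end H385
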