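import Pool.Agent.H385R9.AHDefs
import Pool.Agent.H385R9.AH3
import Pool.Agent.H385R9.AH9
import Pool.Agent.H385R9.AH10
import Pool.Agent.H385R9.AH11

/-!
TEAM Q4, project AH (helper385), task AH12.
-/

open Complex Filter Topology Set MeasureTheory

set_option maxHeartbeats 4000000

namespace H385

open Pool.Agent.H304R3.HK (tc HC CS bb LamK psi bH aH LH Rep)

lemma ah12_phi_le (q : ZI) (hq : q ≠ 0) : (phiQ q : ℝ) ≤ nrm q := by
  have := HG6a_finite hq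
  rw [← HG6a_card q]
  exact_mod_cast Nat.card_le_card_of_injective (fun u : (RQ q)ˣ => (u : RQ q)) Units.val_injective

lemma ah12_int {ι : Type*} (s : Finset ι) (f : ι → ℝ → ℂ) (c : ι → ℂ)
    (hc : ∀ a ∈ s, Continuous (f a)) (hi : ∀ a ∈ s, Integrable (fun t => ‖f a t‖ ^ 2)) :
    Integrable (fun t : ℝ => ‖∑ a ∈ s, f a t * c a‖ ^ 2) := by
  have hmaj : Integrable (fun t : ℝ => (s.card : ℝ) * ∑ a ∈ s, ‖f a t‖ ^ 2 * ‖c a‖ ^ 2) :=
    (integrable_finsetSum _ fun a ha => (hi a ha).mul_const _).const_mul _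
  refine hmaj.mono' ?_ (Eventually.of_forall fun t => ?_)
  · exact (((continuous_finsetSum _ fun a ha => (hc a ha).mul continuous_const).norm).pow
      2).aestronglyMeasurable
  · rw [Real.norm_of_nonneg (sq_nonneg _)]
    have k1 : ‖∑ a ∈ s, f a t * c a‖ ≤ ∑ a ∈ s, ‖f a t‖ * ‖c a‖ := by
      refine (norm_sum_le _ _).trans (Finset.sum_le_sum fun a _ => ?_)
      rw [norm_mul]
    have k2 := sq_sum_le_card_mul_sum_sq (s := s) (f := fun a => ‖f a t‖ * ‖c a‖)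
    calc _ ≤ (∑ a ∈ s, ‖f a t‖ * ‖c a‖) ^ 2 := pow_le_pow_left₀ (norm_nonneg _) k1 2
      _ ≤ _ := by simpa [mul_pow] using k2

open Classical in
/-- AH12: lower bound for the first moment (uses AH3, AH9, AH10, AH11) -/
theorem first_momentZ : ∃ C : ℝ, 0 < C ∧ ∀ (K X Y N : ℕ) (T κ u : ℝ), 1 ≤ K → 1 ≤ X → X ≤ Y →
    4 * N ≤ X → 1 ≤ κ → κ ≤ T → 1 ≤ T → T ≤ Real.exp (κ ^ 2) → 0 ≤ u →
    TotQ X Y * MQ N T u - C * (T * (Real.log ((Y : ℝ) / X) + 1) +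
      MQ N T u * ((Real.log ((Y : ℝ) / X) + 1) / K + (N : ℝ) * (Real.log X + 1) / X)) ≤
    ∑ p ∈ EK K X Y, wF p * AQ N T u p := by
  obtain ⟨C0, hC0, h0⟩ := wq_int
  obtain ⟨C9, hC9, h9⟩ := small_condZ
  obtain ⟨C11, hC11, h11⟩ := cop_loss
  refine ⟨C9 + C11, by positivity, ?_⟩
  intro K X Y N T κ u hK hX hXY hNX hκ hκT hT hTκ hu
  have hX0 : (0:ℝ) < X := by exact_mod_cast hX
  have hlogX : 0 ≤ Real.log X := Real.log_nonneg (by exact_mod_cast hX)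
  have hlogXY : 0 ≤ Real.log ((Y : ℝ) / X) := by
    apply Real.log_nonneg
    rw [le_div_iff₀ hX0, one_mul]; exact_mod_cast hXY
  set w : ℝ → ZI → ℂ := fun t => wQ (bn T u t) with hw
  have hcont : ∀ a : ZI, Continuous (fun t => w t a) := fun a => (h0 T κ u a hκ hκT hT hTκ).1
  have hint : ∀ a : ZI, Integrable (fun t => ‖w t a‖ ^ 2) := fun a =>
    (h0 T κ u a hκ hκT hT hTκ).2.1
  set I : ZI → ℝ := fun a => ∫ t : ℝ, ‖w t a‖ ^ 2 with hI
  have hI0 : ∀ a, 0 ≤ I a := fun a => integral_nonneg fun t => sq_nonneg _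
  have hMQ : MQ N T u = (1 / 4 : ℝ) * ∑ a ∈ BX N, I a := by
    unfold MQ
    rw [integral_const_mul, integral_finsetSum _ fun a _ => hint a]
  have hMQ0 : 0 ≤ MQ N T u := by
    rw [hMQ]
    exact mul_nonneg (by norm_num) (Finset.sum_nonneg fun a _ => hI0 a)
  -- integrability of one character sum
  have hchi : ∀ (q : ZI) (χ : MulChar (RQ q) ℂ),
      Integrable (fun t : ℝ => ‖SC (BX N) (w t) q χ‖ ^ 2) := by
    intro q χ
    unfold SC
    exact ah12_int (BX N) (fun a t => w t a) (fun a => chiZ q χ a) (fun a _ => hcont a)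
      (fun a _ => hint a)
  have hchi4 : ∀ (q : ZI) (χ : MulChar (RQ q) ℂ),
      (fun t : ℝ => ‖(1 / 4 : ℂ) * SC (BX N) (w t) q χ‖ ^ 2) =
        fun t : ℝ => (1 / 16 : ℝ) * ‖SC (BX N) (w t) q χ‖ ^ 2 := by
    intro q χ
    funext t
    rw [norm_mul, mul_pow]
    norm_num
  have hchi4i : ∀ (q : ZI) (χ : MulChar (RQ q) ℂ),
      Integrable (fun t : ℝ => ‖(1 / 4 : ℂ) * SC (BX N) (w t) q χ‖ ^ 2) := by
    intro q χ
    rw [hchi4]
    exact (hchi q χ).const_mul _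
  have hAQ : ∀ (q : ZI) (χ : MulChar (RQ q) ℂ), AQ N T u ⟨q, χ⟩ =
      (1 / 16 : ℝ) * ∫ t : ℝ, ‖SC (BX N) (w t) q χ‖ ^ 2 := by
    intro q χ
    have : AQ N T u ⟨q, χ⟩ = ∫ t : ℝ, ‖(1 / 4 : ℂ) * SC (BX N) (w t) q χ‖ ^ 2 := rfl
    rw [this, hchi4, integral_const_mul]
  -- full sum over the characters modulo q
  have hfull : ∀ q : ZI, X < nrm q → ∑ χ ∈ FQs q, AQ N T u ⟨q, χ⟩ =
      (phiQ q : ℝ) / 4 * MQ N T u - (phiQ q : ℝ) / 16 *
        ∑ a ∈ (BX N).filter (fun a => ¬ IsCoprime a q), I a := by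
    intro q hq
    have e1 : ∑ χ ∈ FQs q, AQ N T u ⟨q, χ⟩ =
        ∫ t : ℝ, ∑ χ ∈ FQs q, ‖(1 / 4 : ℂ) * SC (BX N) (w t) q χ‖ ^ 2 := by
      rw [integral_finsetSum _ fun χ _ => hchi4i q χ]
      rfl
    have e2 : ∀ t : ℝ, ∑ χ ∈ FQs q, ‖(1 / 4 : ℂ) * SC (BX N) (w t) q χ‖ ^ 2 =
        (phiQ q : ℝ) / 4 *
        ((1 / 4 : ℝ) * ∑ a ∈ (BX N).filter (fun a => IsCoprime a q), ‖w t a‖ ^ 2) := fun t =>
      fq_exact q N (by omega) (w t) (wq_props (bn T u t)).2.1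
    rw [e1]
    simp_rw [e2]
    rw [integral_const_mul, integral_const_mul, integral_finsetSum _ fun a _ => hint a]
    have e3 : ∑ a ∈ BX N, I a = ∑ a ∈ (BX N).filter (fun a => IsCoprime a q), I a +
        ∑ a ∈ (BX N).filter (fun a => ¬ IsCoprime a q), I a :=
      (Finset.sum_filter_add_sum_filter_not _ _ _).symm
    rw [hMQ, e3]
    ring
  -- split
  have hEK : ∑ p ∈ EK K X Y, wF p * AQ N T u p =
      ∑ q ∈ (BX Y).filter (fun q => X < nrm q), (1 / (nrm q : ℝ) ^ 2) *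
        ∑ χ ∈ (FQs q).filter (fun χ => BigC K q χ), AQ N T u ⟨q, χ⟩ := by
    unfold EK
    rw [Finset.sum_sigma]
    refine Finset.sum_congr rfl fun q _ => ?_
    rw [Finset.mul_sum]
    rfl
  have hsplit : ∀ q : ZI, ∑ χ ∈ (FQs q).filter (fun χ => BigC K q χ), AQ N T u ⟨q, χ⟩ =
      ∑ χ ∈ FQs q, AQ N T u ⟨q, χ⟩ -
        ∑ χ ∈ (FQs q).filter (fun χ => ¬ BigC K q χ), AQ N T u ⟨q, χ⟩ := by
    intro q
    rw [eq_sub_iff_add_eq]
    exact Finset.sum_filter_add_sum_filter_not _ _ _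
  -- small conductor
  have hsmall : ∑ q ∈ (BX Y).filter (fun q => X < nrm q), (1 / (nrm q : ℝ) ^ 2) *
      ∑ χ ∈ (FQs q).filter (fun χ => ¬ BigC K q χ), AQ N T u ⟨q, χ⟩ ≤
      C9 / 4 * ((Real.log ((Y : ℝ) / X) + 1) / K + (N : ℝ) * (Real.log X + 1) / X) * MQ N T u := by
    set Q : ℝ := (Real.log ((Y : ℝ) / X) + 1) / K + (N : ℝ) * (Real.log X + 1) / X with hQ
    have e1 : ∑ q ∈ (BX Y).filter (fun q => X < nrm q), (1 / (nrm q : ℝ) ^ 2) *
        ∑ χ ∈ (FQs q).filter (fun χ => ¬ BigC K q χ), AQ N T u ⟨q, χ⟩ =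
        (1 / 16 : ℝ) * ∫ t : ℝ, ∑ q ∈ (BX Y).filter (fun q => X < nrm q), (1 / (nrm q : ℝ) ^ 2) *
          ∑ χ ∈ (FQs q).filter (fun χ => ¬ BigC K q χ), ‖SC (BX N) (w t) q χ‖ ^ 2 := by
      rw [integral_finsetSum _ fun q _ =>
        (integrable_finsetSum _ fun χ _ => hchi q χ).const_mul _, Finset.mul_sum]
      refine Finset.sum_congr rfl fun q _ => ?_
      rw [integral_const_mul, integral_finsetSum _ fun χ _ => hchi q χ]
      simp_rw [hAQ]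
      rw [← Finset.mul_sum]
      ring
    rw [e1]
    have e2 : ∫ t : ℝ, ∑ q ∈ (BX Y).filter (fun q => X < nrm q), (1 / (nrm q : ℝ) ^ 2) *
          ∑ χ ∈ (FQs q).filter (fun χ => ¬ BigC K q χ), ‖SC (BX N) (w t) q χ‖ ^ 2 ≤
        ∫ t : ℝ, C9 * Q * ∑ n ∈ BX N, ‖w t n‖ ^ 2 := by
      refine integral_mono ?_ ?_ fun t => h9 K X Y N (w t) hK hX hXY
      · exact integrable_finsetSum _ fun q _ =>
          (integrable_finsetSum _ fun χ _ => hchi q χ).const_mul _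
      · exact (integrable_finsetSum _ fun a _ => hint a).const_mul _
    rw [integral_const_mul, integral_finsetSum _ fun a _ => hint a] at e2
    rw [hMQ]
    linarith
  -- coprimality
  have hcop : ∑ q ∈ (BX Y).filter (fun q => X < nrm q), (1 / (nrm q : ℝ) ^ 2) *
      ((phiQ q : ℝ) / 16 * ∑ a ∈ (BX N).filter (fun a => ¬ IsCoprime a q), I a) ≤
      C11 * T * (Real.log ((Y : ℝ) / X) + 1) := by
    refine le_trans (Finset.sum_le_sum fun q hq => ?_) (h11 X Y N T κ u hX hXY hκ hκT hT hTκ hu)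
    have hq1 : X < nrm q := (Finset.mem_filter.1 hq).2
    have hq0 : (0 : ℝ) < nrm q := by exact_mod_cast (by omega : 0 < nrm q)
    have hqne : q ≠ 0 := by
      rintro rfl
      simp [nrm] at hq1
    have hS : 0 ≤ ∑ a ∈ (BX N).filter (fun a => ¬ IsCoprime a q), I a :=
      Finset.sum_nonneg fun a _ => hI0 a
    have hphi := ah12_phi_le q hqne
    have e : (1 / (nrm q : ℝ)) * ∑ a ∈ (BX N).filter (fun a => ¬ IsCoprime a q), I a =
        (1 / (nrm q : ℝ) ^ 2) * ((nrm q : ℝ) *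
          ∑ a ∈ (BX N).filter (fun a => ¬ IsCoprime a q), I a) := by
      field_simp
    calc (1 / (nrm q : ℝ) ^ 2) * ((phiQ q : ℝ) / 16 *
          ∑ a ∈ (BX N).filter (fun a => ¬ IsCoprime a q), I a)
        ≤ (1 / (nrm q : ℝ) ^ 2) * ((nrm q : ℝ) *
          ∑ a ∈ (BX N).filter (fun a => ¬ IsCoprime a q), I a) := by
          refine mul_le_mul_of_nonneg_left ?_ (by positivity)
          refine mul_le_mul_of_nonneg_right ?_ hS
          linarith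
      _ = (1 / (nrm q : ℝ)) * ∑ a ∈ (BX N).filter (fun a => ¬ IsCoprime a q), I a := e.symm
  -- combine
  have hmain : ∑ p ∈ EK K X Y, wF p * AQ N T u p = TotQ X Y * MQ N T u -
      ∑ q ∈ (BX Y).filter (fun q => X < nrm q), (1 / (nrm q : ℝ) ^ 2) *
        ((phiQ q : ℝ) / 16 * ∑ a ∈ (BX N).filter (fun a => ¬ IsCoprime a q), I a) -
      ∑ q ∈ (BX Y).filter (fun q => X < nrm q), (1 / (nrm q : ℝ) ^ 2) *
        ∑ χ ∈ (FQs q).filter (fun χ => ¬ BigC K q χ), AQ N T u ⟨q, χ⟩ := by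
    rw [hEK]
    unfold TotQ
    rw [Finset.sum_mul, ← Finset.sum_sub_distrib, ← Finset.sum_sub_distrib]
    refine Finset.sum_congr rfl fun q hq => ?_
    rw [hsplit q, hfull q (Finset.mem_filter.1 hq).2]
    ring
  rw [hmain]
  have hQ0 : 0 ≤ (Real.log ((Y : ℝ) / X) + 1) / K + (N : ℝ) * (Real.log X + 1) / X := by
    positivity
  set Q : ℝ := (Real.log ((Y : ℝ) / X) + 1) / K + (N : ℝ) * (Real.log X + 1) / X
  have p1 : 0 ≤ MQ N T u * Q := mul_nonneg hMQ0 hQ0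
  have p2 : 0 ≤ T * (Real.log ((Y : ℝ) / X) + 1) := by positivity
  nlinarith [mul_nonneg hC9.le p1, mul_nonneg hC11.le p1, mul_nonneg hC9.le p2, mul_nonneg hC11.le p2]

end H385
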