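import Pool.Agent.H385R9.AHDefs
import Pool.Agent.H385R9.AH9

/-!
TEAM Q4, project AH (helper385), task AH13.
-/

open Complex Filter Topology Set MeasureTheory

set_option maxHeartbeats 4000000

namespace H385

open Pool.Agent.H304R3.HK (tc HC CS bb LamK psi bH aH LH Rep)

theorem ah13_BX1 : BX 1 = ({1, -1, im1, -im1} : Finset ZI) := by
  decide

theorem ah13_im1_sq : im1 * im1 = -1 := by
  decide

theorem ah13_sc {q : ZI} (χ : MulChar (RQ q) ℂ) (h : chiZ q χ im1 = -I) :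
    SC (BX 1) (fun a => tc a) q χ = 4 := by
  have h1 : chiZ q χ 1 = 1 := map_one _
  have h2 : chiZ q χ (-1) = -1 := by
    rw [← ah13_im1_sq, map_mul, h]
    linear_combination I_mul_I
  have h3 : chiZ q χ (-im1) = I := by
    have e : (-im1 : ZI) = -1 * im1 := by decide
    rw [e, map_mul, h, h2]
    ring
  unfold SC
  rw [ah13_BX1, Finset.sum_insert (by decide), Finset.sum_insert (by decide),
    Finset.sum_insert (by decide), Finset.sum_singleton, h1, h2, h3, h]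
  have t1 : tc (1 : ZI) = 1 := by simp [tc]
  have t2 : tc (-1 : ZI) = -1 := by simp [tc]
  have t3 : tc im1 = I := by simp [tc, im1]
  have t4 : tc (-im1) = -I := by simp [tc, im1]
  beta_reduce
  rw [t1, t2, t3, t4]
  linear_combination (-2 : ℂ) * I_mul_I

theorem ah13_b : ∑ n ∈ BX 1, ‖tc n‖ ^ 2 = 4 := by
  rw [ah13_BX1, Finset.sum_insert (by decide), Finset.sum_insert (by decide),
    Finset.sum_insert (by decide), Finset.sum_singleton]
  have t1 : tc (1 : ZI) = 1 := by simp [tc]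
  have t2 : tc (-1 : ZI) = -1 := by simp [tc]
  have t3 : tc im1 = I := by simp [tc, im1]
  have t4 : tc (-im1) = -I := by simp [tc, im1]
  rw [t1, t2, t3, t4]
  simp only [norm_one, norm_neg, Complex.norm_I]
  norm_num

open Classical in
theorem ah13_card {K : ℕ} {q : ZI} (hq : q ≠ 0) :
    (((FQs q).filter (fun χ => ¬ BigC K q χ)).card : ℝ) =
      (1 / 16 : ℝ) * ∑ χ ∈ (FQs q).filter (fun χ => ¬ BigC K q χ),
        ‖SC (BX 1) (fun a => tc a) q χ‖ ^ 2 := by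
  have h1 : ∀ χ ∈ (FQs q).filter (fun χ => ¬ BigC K q χ),
      ‖SC (BX 1) (fun a => tc a) q χ‖ ^ 2 = (16 : ℝ) := by
    intro χ hχ
    rw [Finset.mem_filter] at hχ
    rw [ah13_sc χ (((fq_finite q hq).2.2 χ).1 hχ.1)]
    norm_num
  rw [Finset.sum_congr rfl h1, Finset.sum_const, nsmul_eq_mul]
  ring

open Classical in
theorem ah13_mem {X Y : ℕ} (q : ZI) (h : q ∈ (BX Y).filter (fun q => X < nrm q)) :
    q ≠ 0 ∧ X < nrm q ∧ nrm q ≤ Y := by
  rw [Finset.mem_filter, HG3d_mem_BX] at h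
  exact ⟨h.1.1, h.2, h.1.2⟩

open Classical in
theorem ah13_split (K X Y : ℕ) (hX : 4 ≤ X) :
    ∑ p ∈ EK K X Y, wF p = TotQ X Y - (1 / 16 : ℝ) *
      ∑ q ∈ (BX Y).filter (fun q => X < nrm q), (1 / (nrm q : ℝ) ^ 2) *
      ∑ χ ∈ (FQs q).filter (fun χ => ¬ BigC K q χ), ‖SC (BX 1) (fun a => tc a) q χ‖ ^ 2 := by
  unfold EK TotQ
  rw [Finset.sum_sigma, Finset.mul_sum, ← Finset.sum_sub_distrib]
  refine Finset.sum_congr rfl (fun q hq => ?_)
  obtain ⟨hq0, hXq, -⟩ := ah13_mem q hq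
  have h1 : ∑ χ ∈ (FQs q).filter (fun χ => BigC K q χ),
      wF (⟨q, χ⟩ : Σ q : ZI, MulChar (RQ q) ℂ) =
      ((FQs q).filter (fun χ => BigC K q χ)).card * (1 / (nrm q : ℝ) ^ 2) := by
    unfold wF
    simp only [Finset.sum_const, nsmul_eq_mul]
  have h2 : (((FQs q).filter (fun χ => BigC K q χ)).card : ℝ) +
      (((FQs q).filter (fun χ => ¬ BigC K q χ)).card : ℝ) = (phiQ q : ℝ) / 4 := by
    rw [← fq_card q (by omega), ← Nat.cast_add, Finset.card_filter_add_card_filter_not]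
  have h3 := ah13_card (K := K) hq0
  rw [h1]
  linear_combination (1 / (nrm q : ℝ) ^ 2) * h2 - (1 / (nrm q : ℝ) ^ 2) * h3

open Classical in
theorem ah13_totq (X Y : ℕ) :
    TotQ X Y = (1 / 4 : ℝ) * ∑ q ∈ (BX Y).filter (fun q => X < nrm q), phq q / (nrm q : ℝ) := by
  unfold TotQ
  rw [Finset.mul_sum]
  refine Finset.sum_congr rfl (fun q hq => ?_)
  obtain ⟨hq0, -, -⟩ := ah13_mem q hq
  have h1 : (0 : ℝ) < nrm q := by
    have := HG3d_one_le hq0
    linarith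
  unfold phq
  field_simp

open Classical in
/-- AH13: masses (from `fq_card`, `phq_avg` and AH9 with `N = 1`) -/
theorem ek_mass : ∃ C0 : ℝ, 0 < C0 ∧ ∀ (K : ℕ) (P : ZI), 1 ≤ K → P ≠ 0 → Smo P K →
    ∃ C : ℝ, 0 < C ∧ ∀ X Y : ℕ, 4 ≤ X → X ≤ Y →
    (1 / 4 : ℝ) * (Real.pi * GP P) * Real.log ((Y : ℝ) / X) -
      C0 * Real.log ((Y : ℝ) / X) / K - C ≤ ∑ p ∈ EK K X Y, wF p ∧
    ∑ p ∈ EK K X Y, wF p ≤ TotQ X Y ∧ TotQ X Y ≤ C0 * (Real.log ((Y : ℝ) / X) + 1) := by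
  obtain ⟨C9, hC9, h9⟩ := small_condZ
  obtain ⟨Cc, hCc, hc⟩ := class_sum 1 one_ne_zero
  have hpi := Real.pi_pos
  refine ⟨50 + C9 / 4 + Real.pi + Cc, by positivity, fun K P hK hP hS => ?_⟩
  obtain ⟨Cp, hCp, hp⟩ := phq_avg P hP K hK hS
  refine ⟨Cp / 4 + C9 / 2, by positivity, fun X Y hX hXY => ?_⟩
  have hX1 : (1 : ℝ) ≤ X := by exact_mod_cast (by omega : 1 ≤ X)
  have hXY' : (X : ℝ) ≤ Y := by exact_mod_cast hXY
  have hX0 : (0 : ℝ) < X := by linarith
  have hK1 : (1 : ℝ) ≤ K := by exact_mod_cast hK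
  have hK0 : (0 : ℝ) < K := by linarith
  set L := Real.log ((Y : ℝ) / X) with hL
  have hL0 : 0 ≤ L := Real.log_nonneg (by rwa [le_div_iff₀ hX0, one_mul])
  set S := ∑ q ∈ (BX Y).filter (fun q => X < nrm q), (1 / (nrm q : ℝ) ^ 2) *
      ∑ χ ∈ (FQs q).filter (fun χ => ¬ BigC K q χ), ‖SC (BX 1) (fun a => tc a) q χ‖ ^ 2 with hSd
  have hsplit : ∑ p ∈ EK K X Y, wF p = TotQ X Y - (1 / 16 : ℝ) * S := ah13_split K X Y hX
  have hS0 : 0 ≤ S := by
    rw [hSd]
    exact Finset.sum_nonneg (fun q _ => mul_nonneg (by positivity)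
      (Finset.sum_nonneg (fun χ _ => by positivity)))
  have h1 := h9 K X Y 1 (fun a => tc a) hK (by omega) hXY
  rw [ah13_b, ← hSd] at h1
  have h2 : ((1 : ℕ) : ℝ) * (Real.log X + 1) / X ≤ 1 := by
    rw [div_le_one hX0, Nat.cast_one, one_mul]
    have := Real.log_le_sub_one_of_pos hX0
    linarith
  have h3 : (L + 1) / K ≤ L / K + 1 := by
    rw [add_div]
    have : (1 : ℝ) / K ≤ 1 := by rwa [div_le_one hK0]
    linarith
  have h4 : S ≤ C9 * (L / K + 2) * 4 := by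
    refine h1.trans ?_
    refine mul_le_mul_of_nonneg_right (mul_le_mul_of_nonneg_left ?_ hC9.le) (by norm_num)
    linarith
  have h5 := hp X Y (by omega) hXY
  rw [← hL] at h5
  have h6 := ah13_totq X Y
  have h7 : ∑ q ∈ (BX Y).filter (fun q => X < nrm q), phq q / (nrm q : ℝ) ≤
      Real.pi * L + Cc := by
    have h8 := hc X Y 0 ((BX Y).filter (fun q => X < nrm q)) hX0 hXY' (by
      intro j hj
      obtain ⟨a, b, c⟩ := ah13_mem j hj
      exact ⟨a, one_dvd _, by exact_mod_cast b, by exact_mod_cast c⟩)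
    have h10 : (nrm 1 : ℝ) = 1 := by
      have : nrm 1 = 1 := by decide
      rw [this, Nat.cast_one]
    rw [h10, div_one, ← hL] at h8
    refine le_trans (Finset.sum_le_sum (fun q hq => ?_)) h8
    obtain ⟨a, -, -⟩ := ah13_mem q hq
    exact div_le_div_of_nonneg_right (HG6a_le_one a) (Nat.cast_nonneg _)
  have hLK : 0 ≤ L / K := by positivity
  have e1 : (200 : ℝ) / K * L = 200 * (L / K) := by ring
  have e2 : (50 + C9 / 4 + Real.pi + Cc) * L / K = (50 + C9 / 4 + Real.pi + Cc) * (L / K) := by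
    ring
  refine ⟨?_, ?_, ?_⟩
  · rw [hsplit, h6, e2]
    have e3 : (Real.pi * GP P - 200 / K) * L = Real.pi * GP P * L - 200 * (L / K) := by ring
    rw [e3] at h5
    nlinarith [mul_nonneg hpi.le hLK, mul_nonneg hCc.le hLK]
  · rw [hsplit]
    linarith
  · rw [h6]
    nlinarith [mul_nonneg hC9.le hL0, mul_nonneg hCc.le hL0, mul_nonneg hpi.le hL0]

/-- AH13: the primitive characters have large conductor -/
theorem fs_subset_ek (K X Y : ℕ) (hK : 1 ≤ K) : FS X Y ⊆ EK K X Y := by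
  classical
  rintro ⟨q, χ⟩ hp
  unfold FS at hp
  unfold EK
  rw [Finset.mem_sigma] at hp ⊢
  obtain ⟨h1, h2⟩ := hp
  have h1' := h1
  obtain ⟨hq0, -, -⟩ := ah13_mem q h1
  refine ⟨h1', ?_⟩
  have h3 := (hg8a_PFs hq0 χ).1 h2
  obtain ⟨hprim, him⟩ := h3
  rw [Finset.mem_filter]
  refine ⟨((fq_finite q hq0).2.2 χ).2 him, ?_⟩
  intro d hd hKd
  refine hprim d hd (fun hqd => ?_)
  have hd0 : d ≠ 0 := by
    rintro rfl
    exact hq0 (zero_dvd_iff.1 hd)
  have h4 := he3_nrm hqd hd0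
  have h5 : nrm d ≤ K * nrm d := Nat.le_mul_of_pos_left _ (by omega)
  have h6 : K * nrm d < nrm q := hKd
  omega

end H385
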