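import Pool.Agent.H385R6.HG8c
import Pool.Agent.H385R6.HG8d
import Pool.Agent.H385R4.AE8b
import Pool.Agent.H385R4.AE7
import Pool.Agent.H385R4.AE6

/-!
TEAM Q4, project AH (helper385): almost all primitive Hecke characters of `ℚ(i)`.  Definitions.
-/

open Complex Filter Topology Set MeasureTheory

namespace H385

open Pool.Agent.H304R3.HK (tc HC CS bb LamK psi bH aH LH Rep)

open Classical in
/-- coefficients of the prime sum: only elements whose norm is a prime number -/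
noncomputable def wQ (b : ℕ → ℂ) (a : ZI) : ℂ := if (nrm a).Prime then wZ 1 b a else 0

/-- equivariance -/
def Eqv (b : ZI → ℂ) : Prop := ∀ a : ZI, b (im1 * a) = I * b a

open Classical in
/-- the characters with `χ(i) = -i` and conductor of norm at least `N(q)/K`, `X < N(q) ≤ Y` -/
noncomputable def EK (K X Y : ℕ) : Finset (Σ q : ZI, MulChar (RQ q) ℂ) :=
  ((BX Y).filter (fun q => X < nrm q)).sigma (fun q => (FQs q).filter (fun χ => BigC K q χ))

/-- second moment of the coefficients -/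
noncomputable def MQ (N : ℕ) (T u : ℝ) : ℝ :=
  ∫ t : ℝ, (1 / 4 : ℝ) * ∑ a ∈ BX N, ‖wQ (bn T u t) a‖ ^ 2

/-- Gram matrix of the coefficients -/
noncomputable def RQM (N : ℕ) (T u : ℝ) : ℝ :=
  (1 / 16 : ℝ) * ∑ a ∈ BX N, ∑ c ∈ BX N,
    ‖∫ t : ℝ, wQ (bn T u t) a * (starRingEnd ℂ) (wQ (bn T u t) c)‖ ^ 2

/-- mean square of the prime sum of one character -/
noncomputable def AQ (N : ℕ) (T u : ℝ) (p : Σ q : ZI, MulChar (RQ q) ℂ) : ℝ :=
  ∫ t : ℝ, ‖(1 / 4 : ℂ) * SC (BX N) (wQ (bn T u t)) p.1 p.2‖ ^ 2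

/-- mass of the family of all characters with `χ(i) = -i` -/
noncomputable def TotQ (X Y : ℕ) : ℝ :=
  ∑ q ∈ (BX Y).filter (fun q => X < nrm q), (1 / (nrm q : ℝ) ^ 2) * ((phiQ q : ℝ) / 4)

end H385
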