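import Pool.Agent.H385R9.AHAux
import Pool.Agent.H385R9.AHDefs
import Pool.Agent.H385R9.AH3

/-!
TEAM Q4, project AH (helper385), task AH14 (helper873).
-/

open Complex Filter Topology Set MeasureTheory

set_option maxHeartbeats 4000000

namespace H385

open Pool.Agent.H304R3.HK (tc HC CS bb LamK psi bH aH LH Rep)

namespace AH14

open Pool.Agent.H304R3.HK Pool.Agent.H304R3.HK.M4 AE7Aux

theorem ah14_diff (C : ℝ) (hnp : ∀ u : ℝ,
    Summable (fun n : ℕ => npw n * Real.exp (-(u - Real.log n) ^ 2 / 4)) ∧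
    ∑' n : ℕ, npw n * Real.exp (-(u - Real.log n) ^ 2 / 4) ≤ C)
    (q : ZI) (χ : MulChar (RQ q) ℂ) (h : HC q (chiZ q χ)) (N : ℕ) (T' u t : ℝ) (hT : 0 ≤ T') :
    ‖(1 / 4 : ℂ) * SC (BX N) (wZ 1 (bn T' u t)) q χ -
      (1 / 4 : ℂ) * SC (BX N) (wQ (bn T' u t)) q χ‖ ≤ 2 * C * wt T' t := by
  classical
  set b := bn T' u t with hb
  have hpsi : ∀ a : ZI, ‖psi (chiZ q χ) a‖ ≤ 1 :=
    (Pool.Agent.H304R3.HK.uh_psi q (chiZ q χ) h).hb
  have hw := wt_nonneg T' t hT
  have e0 : (1 / 4 : ℂ) * SC (BX N) (wZ 1 b) q χ - (1 / 4 : ℂ) * SC (BX N) (wQ b) q χ =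
      ∑ n ∈ Finset.Icc 1 N, bb (fun a => (wZ 1 b a - wQ b a) * chiZ q χ a) n := by
    rw [← mul_sub, ← HE5.sum_BX]
    unfold SC
    rw [← Finset.sum_sub_distrib]
    congr 1
    exact Finset.sum_congr rfl fun a _ => by ring
  have e1 : ∀ n ∈ Finset.Icc 1 N, ‖bb (fun a => (wZ 1 b a - wQ b a) * chiZ q χ a) n‖ ≤
      2 * (if ¬ n.Prime then ArithmeticFunction.vonMangoldt n * ‖b n‖ else 0) := by
    intro n hn
    by_cases hp : n.Prime
    · rw [if_neg (not_not.2 hp), mul_zero, bb_eq, Finset.sum_eq_zero, mul_zero, norm_zero]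
      intro a ha
      have hna : nrm a = n := HE5.nrm_eq.2 (mem_T.1 ha)
      have h0 : wQ b a = wZ 1 b a := by
        unfold wQ
        rw [if_pos (by rw [hna]; exact hp)]
      rw [h0, sub_self, zero_mul]
    · rw [if_pos hp]
      refine HE5.bb_le _ n ‖b n‖ (norm_nonneg _) ?_
      intro a ha
      have hna : nrm a = n := HE5.nrm_eq.2 (mem_T.1 ha)
      have h0 : wQ b a = 0 := by
        unfold wQ
        rw [if_neg (by rw [hna]; exact hp)]
      have ha0 : a ≠ 0 := by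
        rintro rfl
        have h1 : nrm (0 : ZI) = 0 := by simp [nrm]
        rw [h1] at hna
        rw [Finset.mem_Icc] at hn
        omega
      have hps : psi (chiZ q χ) a = chiZ q χ a * (tc a / (‖tc a‖ : ℂ)) := by
        show (if a = 0 then 0 else chiZ q χ a * (tc a / (‖tc a‖ : ℂ))) = _
        rw [if_neg ha0]
      have e3 : (wZ 1 b a - wQ b a) * chiZ q χ a = (LamK a : ℂ) * psi (chiZ q χ) a * b n := by
        rw [h0, sub_zero, hps]
        unfold wZ
        rw [if_pos isCoprime_one_right, hna]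
        ring
      rw [e3, norm_mul, norm_mul, Complex.norm_real, Real.norm_of_nonneg (HE5.LamK_nn a)]
      refine mul_le_mul_of_nonneg_right ?_ (norm_nonneg _)
      calc LamK a * ‖psi (chiZ q χ) a‖ ≤ LamK a * 1 :=
            mul_le_mul_of_nonneg_left (hpsi a) (HE5.LamK_nn a)
        _ = LamK a := mul_one _
  have hpos : ∀ n, 0 ≤ ArithmeticFunction.vonMangoldt n * ‖b n‖ := fun n =>
    mul_nonneg ArithmeticFunction.vonMangoldt_nonneg (norm_nonneg _)
  have hsb : Summable (fun n : ℕ => ArithmeticFunction.vonMangoldt n * ‖b n‖) :=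
    b_summable T' u t hT
  have hn0 : ∀ n : ℕ, 0 ≤ (if ¬ n.Prime then ArithmeticFunction.vonMangoldt n * ‖b n‖ else 0) := by
    intro n
    split_ifs
    · exact le_rfl
    · exact hpos n
  have hsum : Summable (fun n : ℕ => if ¬ n.Prime then
      ArithmeticFunction.vonMangoldt n * ‖b n‖ else 0) := by
    refine Summable.of_nonneg_of_le hn0 (fun n => ?_) hsb
    split_ifs
    · exact hpos n
    · exact le_rfl
  have e4 : ∑' n : ℕ, (if ¬ n.Prime then ArithmeticFunction.vonMangoldt n * ‖b n‖ else 0) ≤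
      wt T' t * ∑' n : ℕ, (if ¬ n.Prime then ArithmeticFunction.vonMangoldt n / Real.sqrt n *
        Real.exp (-(u - Real.log n) ^ 2 / 4) else 0) :=
    b_tsum_le T' u t hT (fun n => ¬ n.Prime)
  have e5 : ∑' n : ℕ, (if ¬ n.Prime then ArithmeticFunction.vonMangoldt n / Real.sqrt n *
        Real.exp (-(u - Real.log n) ^ 2 / 4) else 0) =
      ∑' n : ℕ, npw n * Real.exp (-(u - Real.log n) ^ 2 / 4) := by
    refine tsum_congr fun n => ?_
    unfold npw
    by_cases hp : n.Prime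
    · rw [if_neg (not_not.2 hp), if_pos hp, zero_mul]
    · rw [if_pos hp, if_neg hp]
  rw [e5] at e4
  have e6 := mul_le_mul_of_nonneg_left (hnp u).2 hw
  have e7 := hsum.sum_le_tsum (Finset.Icc 1 N) (fun n _ => hn0 n)
  have e8 : ‖∑ n ∈ Finset.Icc 1 N, bb (fun a => (wZ 1 b a - wQ b a) * chiZ q χ a) n‖ ≤
      ∑ n ∈ Finset.Icc 1 N,
        2 * (if ¬ n.Prime then ArithmeticFunction.vonMangoldt n * ‖b n‖ else 0) :=
    (norm_sum_le _ _).trans (Finset.sum_le_sum e1)
  rw [← Finset.mul_sum] at e8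
  rw [e0]
  linarith

end AH14

/-- AH14: from the full prime sum to the sum over elements of prime norm, for one character
(from `hg_point` with `P = 1` and `np_bound`) -/
theorem aa_pointZ : ∃ C : ℝ, 0 < C ∧ ∀ (q : ZI) (χ : MulChar (RQ q) ℂ), HC q (chiZ q χ) →
    ∀ (N : ℕ) (T u t : ℝ), 0 ≤ T → 0 ≤ u → Tl N u ≤ 1 →
    ‖∑' n : ℕ, aH (chiZ q χ) n * bn T u t n -
      (1 / 4 : ℂ) * SC (BX N) (wQ (bn T u t)) q χ‖ ≤ C * wt T t := by
  obtain ⟨C, hC, hnp⟩ := AE7Aux.np_bound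
  refine ⟨2 + 2 * C, by positivity, ?_⟩
  intro q χ h N T u t hT hu hTl
  have h1 := hg_point 1 one_ne_zero q χ h N T u t hT hu
  have hG : Gq (nrm 1) u = 0 := by
    have h3 : nrm (1 : ZI) = 1 := by simp [nrm]
    rw [h3]
    unfold Gq
    simp [Nat.coprime_one_right]
  rw [hG, zero_add] at h1
  have hw := wt_nonneg T t hT
  have h2 := AH14.ah14_diff C hnp q χ h N T u t hT
  have h3 : wt T t * (2 * Tl N u) ≤ wt T t * 2 := by
    refine mul_le_mul_of_nonneg_left ?_ hw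
    linarith
  calc ‖∑' n : ℕ, aH (chiZ q χ) n * bn T u t n -
      (1 / 4 : ℂ) * SC (BX N) (wQ (bn T u t)) q χ‖
      = ‖(∑' n : ℕ, aH (chiZ q χ) n * bn T u t n -
          (1 / 4 : ℂ) * SC (BX N) (wZ 1 (bn T u t)) q χ) +
        ((1 / 4 : ℂ) * SC (BX N) (wZ 1 (bn T u t)) q χ -
          (1 / 4 : ℂ) * SC (BX N) (wQ (bn T u t)) q χ)‖ := by
        congr 1
        ring
    _ ≤ wt T t * (2 * Tl N u) + 2 * C * wt T t := (norm_add_le _ _).trans (add_le_add h1 h2)
    _ ≤ (2 + 2 * C) * wt T t := by linarith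

end H385
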