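import Pool.Agent.H385R9.AHDefs

/-!
TEAM Q4, project AH (helper385), task AH5 (helper250).
-/

open Complex Filter Topology Set MeasureTheory

set_option maxHeartbeats 4000000

namespace H385

open Pool.Agent.H304R3.HK (tc HC CS bb LamK psi bH aH LH Rep)

/-- AH5: large sieve for the characters with large conductor (from `bessel_q`, `frac_ls`) -/
theorem ek_ls (K : ℕ) (P : ZI) (hP : P ≠ 0) : ∃ C : ℝ, 0 < C ∧ ∀ (X Y N : ℕ) (b : ZI → ℂ),
    1 ≤ X → X ≤ Y →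
    ∑ p ∈ EK K X Y, wF p * ‖SC (BX N) b p.1 p.2‖ ^ 2 ≤
      Real.exp (2 * Real.pi * Real.sqrt N / X) *
        (Real.pi * GP P * Real.log ((Y : ℝ) / X) + C) * ∑ n ∈ BX N, ‖b n‖ ^ 2 := by
  classical
  obtain ⟨C, hC0, hC⟩ := frac_ls P hP K
  refine ⟨C, hC0, fun X Y N b hX hXY => ?_⟩
  refine le_trans ?_ (hC X Y N (BX N) b hX hXY (fun n hn => (hg5b_mem_BX.1 hn).2))
  unfold EK
  rw [Finset.sum_sigma]
  refine Finset.sum_le_sum fun q hq => ?_
  have hq0 : q ≠ 0 := hg5b_BX_ne (Finset.mem_filter.1 hq).1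
  have h1 := bessel_q q hq0 K (BX N) b
  obtain ⟨g0, -, g1, g2, -⟩ := phq_gP P q hP hq0
  have hn : (0 : ℝ) < nrm q := by
    have := (hg5b_mem_BX.1 (Finset.mem_filter.1 hq).1).1
    exact_mod_cast this
  have hphi : (0 : ℝ) < phiQ q := by exact_mod_cast (fq_finite q hq0).2.1
  rw [hg5b_sum hq0] at h1
  set A : ℝ := ∑ χ ∈ hg5b_fs q (BigC K q), ‖SC (BX N) b q χ‖ ^ 2 with hA
  have hA0 : 0 ≤ A := Finset.sum_nonneg fun _ _ => by positivity
  have h2 : ∑ χ ∈ (FQs q).filter (fun χ => BigC K q χ), wF ⟨q, χ⟩ * ‖SC (BX N) b q χ‖ ^ 2 ≤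
      (1 / (nrm q : ℝ) ^ 2) * A := by
    have h3 : ∑ χ ∈ (FQs q).filter (fun χ => BigC K q χ), wF ⟨q, χ⟩ * ‖SC (BX N) b q χ‖ ^ 2 =
        (1 / (nrm q : ℝ) ^ 2) *
          ∑ χ ∈ (FQs q).filter (fun χ => BigC K q χ), ‖SC (BX N) b q χ‖ ^ 2 := by
      rw [Finset.mul_sum]
      rfl
    rw [h3]
    refine mul_le_mul_of_nonneg_left ?_ (by positivity)
    refine Finset.sum_le_sum_of_subset_of_nonneg ?_ fun χ _ _ => by positivity
    intro χ hχ
    exact (hg5b_mem hq0 _ χ).2 (Finset.mem_filter.1 hχ).2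
  refine le_trans h2 ?_
  calc (1 / (nrm q : ℝ) ^ 2) * A ≤ (gP P q / (nrm q : ℝ) ^ 2) * ((nrm q : ℝ) / phiQ q * A) := by
        have h3 : 1 ≤ gP P q * ((nrm q : ℝ) / phiQ q) := by
          have h4 : phq q * ((nrm q : ℝ) / phiQ q) = 1 := by
            unfold phq
            field_simp
          rw [← h4]
          exact mul_le_mul_of_nonneg_right g1 (by positivity)
        have h5 : (gP P q / (nrm q : ℝ) ^ 2) * ((nrm q : ℝ) / phiQ q * A) =
          (1 / (nrm q : ℝ) ^ 2) * ((gP P q * ((nrm q : ℝ) / phiQ q)) * A) := by ring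
        rw [h5]
        refine mul_le_mul_of_nonneg_left ?_ (by positivity)
        exact le_mul_of_one_le_left hA0 h3
    _ ≤ _ := mul_le_mul_of_nonneg_left h1 (by positivity)

end H385
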