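import Pool.Agent.H385R9.AHDefs
import Pool.Agent.H385R9.AH5
import Pool.Agent.H385R9.AH13

/-!
TEAM Q4, project AH (helper385), task AH15.
-/

open Complex Filter Topology Set MeasureTheory

set_option maxHeartbeats 4000000

namespace H385

open Pool.Agent.H304R3.HK (tc HC CS bb LamK psi bH aH LH Rep)

/-- the choice of the constants, real version -/
theorem ah15_core (μ δ γ C0 cw Cw : ℝ) (hμ : 0 < μ) (hμ1 : μ ≤ 1) (hδ : 0 < δ) (hδ1 : δ ≤ 1)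
    (hγ : 0 < γ) (hC0 : 0 < C0) (hcw : 0 < cw) (hCw : 0 < Cw) :
    ∃ μ' e0 : ℝ, 0 < μ' ∧ μ' ≤ 1 ∧ 0 < e0 ∧ ∃ K : ℕ, 1 ≤ K ∧ 1 / (K : ℝ) ≤ μ' * δ ^ 2 * e0 ∧
    ∀ C1 C : ℝ, 0 < C1 → 0 < C → ∃ K0 : ℝ, 1 ≤ K0 ∧ ∀ X Y : ℕ, 4 ≤ X → K0 * X ≤ Y → X ≤ Y ∧
    ∀ G m W Tot : ℝ, γ ≤ G →
      (1 / 4 : ℝ) * G * Real.log ((Y : ℝ) / X) - C0 * Real.log ((Y : ℝ) / X) / K - C1 ≤ m →
      m ≤ Tot → Tot ≤ C0 * (Real.log ((Y : ℝ) / X) + 1) →
      cw * Real.log ((Y : ℝ) / X) - Cw ≤ W →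
      0 < m ∧ 1 ≤ m ∧ Real.log ((Y : ℝ) / X) + 1 ≤ e0⁻¹ * m ∧ μ' * m ≤ μ * W ∧
      ∀ N : ℕ, Real.sqrt N ≤ e0 * X →
        Real.exp (2 * Real.pi * Real.sqrt N / X) * (G * Real.log ((Y : ℝ) / X) + C) ≤
          4 * ((1 + μ' * δ ^ 2) * m) := by
  have hpi := Real.pi_pos
  obtain ⟨μ', hμ'0, hμ'1, hμ'2⟩ : ∃ μ' : ℝ, 0 < μ' ∧ μ' ≤ 1 ∧ μ' * C0 ≤ μ * cw / 4 := by
    refine ⟨min 1 (μ * cw / (4 * C0)), lt_min one_pos (by positivity), min_le_left _ _, ?_⟩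
    calc min 1 (μ * cw / (4 * C0)) * C0 ≤ (μ * cw / (4 * C0)) * C0 :=
          mul_le_mul_of_nonneg_right (min_le_right _ _) hC0.le
      _ = μ * cw / 4 := by field_simp
  obtain ⟨η, hη⟩ : ∃ η : ℝ, η = μ' * δ ^ 2 := ⟨_, rfl⟩
  have hη0 : 0 < η := by rw [hη]; positivity
  have hη1 : η ≤ 1 := by
    rw [hη]
    exact mul_le_one₀ hμ'1 (sq_nonneg _) (pow_le_one₀ hδ.le hδ1)
  have hlog : 0 < Real.log (1 + η / 4) := Real.log_pos (by linarith)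
  obtain ⟨e0, he00, he01, he02⟩ : ∃ e0 : ℝ, 0 < e0 ∧ e0 ≤ γ / 16 ∧
      2 * Real.pi * e0 ≤ Real.log (1 + η / 4) := by
    refine ⟨min (γ / 16) (Real.log (1 + η / 4) / (2 * Real.pi)), lt_min (by positivity)
      (by positivity), min_le_left _ _, ?_⟩
    calc 2 * Real.pi * min (γ / 16) (Real.log (1 + η / 4) / (2 * Real.pi)) ≤
          2 * Real.pi * (Real.log (1 + η / 4) / (2 * Real.pi)) :=
          mul_le_mul_of_nonneg_left (min_le_right _ _) (by positivity)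
      _ = Real.log (1 + η / 4) := by field_simp
  have hexp : Real.exp (2 * Real.pi * e0) ≤ 1 + η / 4 := by
    rw [← Real.exp_log (show (0 : ℝ) < 1 + η / 4 by linarith)]
    exact Real.exp_le_exp.2 he02
  obtain ⟨K, hK⟩ := exists_nat_gt (1 / (η * e0) + 32 * C0 / (η * γ))
  have hKp : (0 : ℝ) < K := lt_of_le_of_lt (by positivity) hK
  have hK1 : 1 ≤ K := by exact_mod_cast hKp
  have hKa : 1 / (K : ℝ) ≤ η * e0 := by
    have h1 : 1 / (η * e0) ≤ K := by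
      have : 0 ≤ 32 * C0 / (η * γ) := by positivity
      linarith
    rw [div_le_iff₀ (by positivity)] at h1
    rw [div_le_iff₀ hKp]
    linarith
  have hKb : C0 / K ≤ η * γ / 32 := by
    have h1 : 32 * C0 / (η * γ) ≤ K := by
      have : 0 ≤ 1 / (η * e0) := by positivity
      linarith
    rw [div_le_iff₀ (by positivity)] at h1
    rw [div_le_iff₀ hKp]
    linarith
  refine ⟨μ', e0, hμ'0, hμ'1, he00, K, hK1, by rw [← hη]; exact hKa, fun C1 C hC1 hC => ?_⟩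
  rw [← hη]
  obtain ⟨L0, hL0⟩ : ∃ L0 : ℝ, L0 = 1 + 16 / γ + 2 * Cw / cw + 16 * C1 / γ +
    2 * (8 * C1 + 2 * C) / (η * γ) := ⟨_, rfl⟩
  have p1 : 0 < 16 / γ := by positivity
  have p2 : 0 < 2 * Cw / cw := by positivity
  have p3 : 0 < 16 * C1 / γ := by positivity
  have p4 : 0 < 2 * (8 * C1 + 2 * C) / (η * γ) := by positivity
  refine ⟨Real.exp L0, Real.one_le_exp (by linarith), fun X Y hX hXY => ?_⟩
  have hX0 : (0 : ℝ) < X := by exact_mod_cast (by omega : 0 < X)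
  have hle : (X : ℝ) ≤ Y := by
    refine le_trans ?_ hXY
    have := Real.one_le_exp (show 0 ≤ L0 by linarith)
    nlinarith
  refine ⟨by exact_mod_cast hle, ?_⟩
  have hY0 : (0 : ℝ) < Y := lt_of_lt_of_le hX0 hle
  have hLL : L0 ≤ Real.log ((Y : ℝ) / X) := by
    rw [Real.le_log_iff_exp_le (div_pos hY0 hX0), le_div_iff₀ hX0]
    exact hXY
  generalize Real.log ((Y : ℝ) / X) = L at hLL
  intro G m W Tot hG hm hmT hT hW
  have hL1 : 1 + 16 / γ ≤ L := by linarith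
  have hL2 : 1 + 2 * Cw / cw ≤ L := by linarith
  have hL3 : 1 + 16 * C1 / γ ≤ L := by linarith
  have hL4 : 2 * (8 * C1 + 2 * C) / (η * γ) ≤ L := by linarith
  have hL0' : 0 < L := by linarith
  have q1 : γ + 16 ≤ γ * L := by
    have := mul_le_mul_of_nonneg_left hL1 hγ.le
    have e : γ * (1 + 16 / γ) = γ + 16 := by field_simp
    linarith
  have q2 : cw + 2 * Cw ≤ cw * L := by
    have := mul_le_mul_of_nonneg_left hL2 hcw.le
    have e : cw * (1 + 2 * Cw / cw) = cw + 2 * Cw := by field_simp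
    linarith
  have q3 : γ + 16 * C1 ≤ γ * L := by
    have := mul_le_mul_of_nonneg_left hL3 hγ.le
    have e : γ * (1 + 16 * C1 / γ) = γ + 16 * C1 := by field_simp
    linarith
  have q4 : 2 * (8 * C1 + 2 * C) ≤ η * γ * L := by
    have := mul_le_mul_of_nonneg_left hL4 (show 0 ≤ η * γ by positivity)
    have e : η * γ * (2 * (8 * C1 + 2 * C) / (η * γ)) = 2 * (8 * C1 + 2 * C) := by field_simp
    linarith
  have hGL : γ * L ≤ G * L := mul_le_mul_of_nonneg_right hG hL0'.le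
  have hKL : C0 * L / K ≤ η * γ / 32 * L := by
    have := mul_le_mul_of_nonneg_right hKb hL0'.le
    calc C0 * L / K = C0 / K * L := by ring
      _ ≤ _ := this
  have hηγ : η * γ * L ≤ γ * L := by
    have : 0 ≤ γ * L := by positivity
    nlinarith
  have hm1 : γ / 16 * (L + 1) ≤ m := by
    have e1 : η * γ / 32 * L = η * γ * L / 32 := by ring
    have e2 : γ / 16 * (L + 1) = γ * L / 16 + γ / 16 := by ring
    have e3 : (1 / 4 : ℝ) * G * L = G * L / 4 := by ring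
    rw [e1] at hKL
    rw [e3] at hm
    rw [e2]
    linarith
  have hm2 : 1 ≤ m := by
    have e2 : γ / 16 * (L + 1) = γ * L / 16 + γ / 16 := by ring
    linarith
  refine ⟨by linarith, hm2, ?_, ?_, ?_⟩
  · have h1 : e0 * (L + 1) ≤ m :=
      (mul_le_mul_of_nonneg_right he01 (by linarith)).trans hm1
    have h2 := mul_le_mul_of_nonneg_left h1 (show 0 ≤ e0⁻¹ by positivity)
    have e : e0⁻¹ * (e0 * (L + 1)) = L + 1 := by field_simp
    linarith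
  · have h1 : μ' * m ≤ μ' * (C0 * (L + 1)) :=
      mul_le_mul_of_nonneg_left (hmT.trans hT) hμ'0.le
    have h2 : μ' * (C0 * (L + 1)) ≤ μ * cw / 4 * (L + 1) := by
      calc μ' * (C0 * (L + 1)) = μ' * C0 * (L + 1) := by ring
        _ ≤ _ := mul_le_mul_of_nonneg_right hμ'2 (by linarith)
    have h3 : μ * (cw * L - Cw) ≤ μ * W := mul_le_mul_of_nonneg_left hW hμ.le
    have h4 : cw / 4 * (L + 1) ≤ cw * L - Cw := by linarith
    have h5 : μ * (cw / 4 * (L + 1)) ≤ μ * (cw * L - Cw) := mul_le_mul_of_nonneg_left h4 hμ.le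
    have e : μ * cw / 4 * (L + 1) = μ * (cw / 4 * (L + 1)) := by ring
    linarith
  · intro N hN
    have h1 : Real.exp (2 * Real.pi * Real.sqrt N / X) ≤ 1 + η / 4 := by
      refine (Real.exp_le_exp.2 ?_).trans hexp
      rw [div_le_iff₀ hX0]
      calc 2 * Real.pi * Real.sqrt N ≤ 2 * Real.pi * (e0 * X) :=
            mul_le_mul_of_nonneg_left hN (by positivity)
        _ = _ := by ring
    have hGL0 : 0 ≤ G * L + C := by
      have : 0 ≤ γ * L := by positivity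
      linarith
    refine (mul_le_mul_of_nonneg_right h1 hGL0).trans ?_
    have h2 : (1 + η) * (4 * ((1 / 4 : ℝ) * G * L - C0 * L / K - C1)) ≤ (1 + η) * (4 * m) :=
      mul_le_mul_of_nonneg_left (by linarith) (by linarith)
    have h3 : (1 + η) * (4 * ((1 / 4 : ℝ) * G * L - C0 * L / K - C1)) =
        (1 + η) * (G * L) - (1 + η) * (4 * (C0 * L / K) + 4 * C1) := by ring
    have h4 : (1 + η) * (4 * (C0 * L / K) + 4 * C1) ≤ 2 * (4 * (C0 * L / K) + 4 * C1) :=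
      mul_le_mul_of_nonneg_right (by linarith) (by positivity)
    have h5 : (1 + η / 4) * C ≤ 2 * C := mul_le_mul_of_nonneg_right (by linarith) hC.le
    have h6 : η * (γ * L) ≤ η * (G * L) := mul_le_mul_of_nonneg_left hGL hη0.le
    have e1 : (1 + η / 4) * (G * L + C) = G * L + η * (G * L) / 4 + (1 + η / 4) * C := by ring
    have e2 : (1 + η) * (G * L) = G * L + η * (G * L) := by ring
    have e3 : 4 * ((1 + η) * m) = (1 + η) * (4 * m) := by ring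
    have e4 : η * γ * L = η * (γ * L) := by ring
    have e5 : η * γ / 32 * L = η * (γ * L) / 32 := by ring
    rw [e1, e3]
    rw [e4] at q4
    rw [e5] at hKL
    linarith

/-- AH15: choice of the constants (from AH5, AH13, `GP_lower`, `smo_exists`, `Wm_inf`) -/
theorem ek_choice (μ δ : ℝ) (hμ : 0 < μ) (hμ1 : μ ≤ 1) (hδ : 0 < δ) (hδ1 : δ ≤ 1) :
    ∃ (K : ℕ) (μ' K0 e0 : ℝ), 1 ≤ K ∧ 0 < μ' ∧ μ' ≤ 1 ∧ 1 ≤ K0 ∧ 0 < e0 ∧
    ∀ X Y : ℕ, 4 ≤ X → K0 * X ≤ Y →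
      0 < ∑ p ∈ EK K X Y, wF p ∧ 1 ≤ ∑ p ∈ EK K X Y, wF p ∧
      Real.log ((Y : ℝ) / X) + 1 ≤ e0⁻¹ * ∑ p ∈ EK K X Y, wF p ∧
      1 / (K : ℝ) ≤ μ' * δ ^ 2 * e0 ∧
      μ' * ∑ p ∈ EK K X Y, wF p ≤ μ * Wm X Y ∧
      ∀ N : ℕ, Real.sqrt N ≤ e0 * X → ∀ b : ZI → ℂ,
        ∑ p ∈ EK K X Y, wF p * ‖SC (BX N) b p.1 p.2‖ ^ 2 ≤
          4 * ((1 + μ' * δ ^ 2) * ∑ p ∈ EK K X Y, wF p) * ∑ n ∈ BX N, ‖b n‖ ^ 2 := by
  obtain ⟨g, hg, hgP⟩ := GP_lower
  obtain ⟨cw, Cw, hcw, hCw, hWm⟩ := Wm_inf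
  obtain ⟨C0, hC0, hmass⟩ := ek_mass
  have hpi := Real.pi_pos
  obtain ⟨μ', e0, hμ'0, hμ'1, he0, K, hK1, hK2, hcore⟩ :=
    ah15_core μ δ (Real.pi * g) C0 cw Cw hμ hμ1 hδ hδ1 (by positivity) hC0 hcw hCw
  obtain ⟨P, hP, hS⟩ := smo_exists K
  obtain ⟨C1, hC1, h1⟩ := hmass K P hK1 hP hS
  obtain ⟨C, hC, h2⟩ := ek_ls K P hP
  obtain ⟨K0, hK0, h3⟩ := hcore C1 C hC1 hC
  refine ⟨K, μ', K0, e0, hK1, hμ'0, hμ'1, hK0, he0, fun X Y hX hXY => ?_⟩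
  obtain ⟨hle, h4⟩ := h3 X Y hX hXY
  obtain ⟨m1, m2, m3⟩ := h1 X Y hX hle
  have hG : Real.pi * g ≤ Real.pi * GP P := mul_le_mul_of_nonneg_left (hgP P hP) hpi.le
  obtain ⟨r1, r2, r3, r4, r5⟩ := h4 (Real.pi * GP P) _ (Wm X Y) (TotQ X Y) hG m1 m2 m3
    (hWm X Y (by omega) hle)
  refine ⟨r1, r2, r3, hK2, r4, fun N hN b => ?_⟩
  refine (h2 X Y N b (by omega) hle).trans ?_
  exact mul_le_mul_of_nonneg_right (r5 N hN) (Finset.sum_nonneg fun n _ => sq_nonneg _)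

end H385
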