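import Pool.Agent.H385R9.AHDefs
import Pool.Agent.H385R9.AH3

/-!
TEAM Q4, project AH (helper385), task AH4.
-/

open Complex Filter Topology Set MeasureTheory

set_option maxHeartbeats 4000000

namespace H385

open Pool.Agent.H304R3.HK (tc HC CS bb LamK psi bH aH LH Rep)

namespace AH4

theorem fib8 (N : ℕ) (F : ℕ → ℝ) (hF : ∀ n, 0 ≤ F n) (h0 : ∀ n, ¬ n.Prime → F n = 0) :
    ∑ a ∈ BX N, F (nrm a) ≤ 8 * ∑ n ∈ Finset.Icc 1 N, F n := by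
  classical
  rw [← Finset.sum_fiberwise_of_maps_to (s := BX N) (t := Finset.Icc 1 N) (g := nrm)
    (fun a ha => by rw [Finset.mem_Icc]; exact (H10.mem_BX N a).1 ha), Finset.mul_sum]
  refine Finset.sum_le_sum fun n _ => ?_
  have h1 : ∑ a ∈ (BX N).filter (fun a => nrm a = n), F (nrm a) =
      (((BX N).filter (fun a => nrm a = n)).card : ℝ) * F n := by
    rw [← nsmul_eq_mul, ← Finset.sum_const]
    refine Finset.sum_congr rfl fun a ha => ?_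
    rw [(Finset.mem_filter.mp ha).2]
  rw [h1]
  by_cases hp : n.Prime
  · refine mul_le_mul_of_nonneg_right ?_ (hF n)
    exact_mod_cast AH3.card8 hp _ (fun a ha => (Finset.mem_filter.mp ha).2)
  · rw [h0 n hp, mul_zero, mul_zero]

theorem ph_le (a : ZI) : ‖tc a / (‖tc a‖ : ℂ)‖ ≤ 1 := by
  rw [norm_div, Complex.norm_real, norm_norm]
  exact div_self_le_one _

theorem wQ_cpr (T u t : ℝ) (a : ZI) :
    wQ (bn T u t) a = (tc a / (‖tc a‖ : ℂ)) * cpr 1 T u t (nrm a) := by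
  by_cases hp : (nrm a).Prime
  · rw [AH3.wQ_prime _ hp]
    unfold cpr
    rw [if_pos ⟨hp, Nat.coprime_one_right _⟩]
    ring
  · rw [AH3.wQ_np _ hp]
    unfold cpr
    rw [if_neg (fun h => hp h.1), mul_zero]

theorem gram_le (T u : ℝ) (a c : ZI) :
    ‖∫ t : ℝ, wQ (bn T u t) a * (starRingEnd ℂ) (wQ (bn T u t) c)‖ ≤
      ‖∫ t : ℝ, cpr 1 T u t (nrm a) * (starRingEnd ℂ) (cpr 1 T u t (nrm c))‖ := by
  have h1 : (fun t : ℝ => wQ (bn T u t) a * (starRingEnd ℂ) (wQ (bn T u t) c)) = fun t : ℝ =>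
      ((tc a / (‖tc a‖ : ℂ)) * (starRingEnd ℂ) (tc c / (‖tc c‖ : ℂ))) *
        (cpr 1 T u t (nrm a) * (starRingEnd ℂ) (cpr 1 T u t (nrm c))) := by
    funext t
    rw [wQ_cpr, wQ_cpr, map_mul]
    ring
  rw [h1, integral_const_mul, norm_mul, norm_mul, RCLike.norm_conj]
  have h2 : ‖tc a / (‖tc a‖ : ℂ)‖ * ‖tc c / (‖tc c‖ : ℂ)‖ ≤ 1 := by
    have := mul_le_mul (ph_le a) (ph_le c) (norm_nonneg _) zero_le_one
    linarith
  exact mul_le_of_le_one_left (norm_nonneg _) h2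

end AH4

/-- AH4: the Gram matrix (from `cpr_gram`) -/
theorem gramZ : ∃ C : ℝ, 0 < C ∧ ∀ (N : ℕ) (T κ u : ℝ), 1 ≤ κ → κ ≤ T → 1 ≤ T →
    T ≤ Real.exp (κ ^ 2) → 0 ≤ u → RQM N T u ≤ C * (T ^ 2 + T * (u + 1) ^ 5) := by
  obtain ⟨C, hC, h⟩ := cpr_gram
  refine ⟨4 * C, by positivity, fun N T κ u h1 h2 h3 h4 h5 => ?_⟩
  have h6 := h 1 N T κ u h1 h2 h3 h4 h5
  set G : ℕ → ℕ → ℝ := fun n m =>
    ‖∫ t : ℝ, cpr 1 T u t n * (starRingEnd ℂ) (cpr 1 T u t m)‖ ^ 2 with hG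
  have hG0 : ∀ n m, 0 ≤ G n m := fun n m => by rw [hG]; positivity
  have hGn : ∀ n m, ¬ n.Prime → G n m = 0 := by
    intro n m hn
    rw [hG]
    have : (fun t : ℝ => cpr 1 T u t n * (starRingEnd ℂ) (cpr 1 T u t m)) = fun _ => 0 := by
      funext t
      unfold cpr
      rw [if_neg (fun h => hn h.1), zero_mul]
    simp only
    rw [this, integral_zero, norm_zero]
    norm_num
  have hGm : ∀ n m, ¬ m.Prime → G n m = 0 := by
    intro n m hn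
    rw [hG]
    have : (fun t : ℝ => cpr 1 T u t n * (starRingEnd ℂ) (cpr 1 T u t m)) = fun _ => 0 := by
      funext t
      have : cpr 1 T u t m = 0 := by
        unfold cpr
        rw [if_neg (fun h => hn h.1)]
      rw [this, map_zero, mul_zero]
    simp only
    rw [this, integral_zero, norm_zero]
    norm_num
  unfold RQM
  have h7 : ∑ a ∈ BX N, ∑ c ∈ BX N,
      ‖∫ t : ℝ, wQ (bn T u t) a * (starRingEnd ℂ) (wQ (bn T u t) c)‖ ^ 2 ≤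
      ∑ a ∈ BX N, ∑ c ∈ BX N, G (nrm a) (nrm c) := by
    refine Finset.sum_le_sum fun a _ => Finset.sum_le_sum fun c _ => ?_
    rw [hG]
    exact pow_le_pow_left₀ (norm_nonneg _) (AH4.gram_le T u a c) 2
  have h8 : ∑ a ∈ BX N, ∑ c ∈ BX N, G (nrm a) (nrm c) ≤
      ∑ a ∈ BX N, 8 * ∑ m ∈ Finset.Icc 1 N, G (nrm a) m :=
    Finset.sum_le_sum fun a _ => AH4.fib8 N (fun m => G (nrm a) m) (fun m => hG0 _ m)
      (fun m hm => hGm _ m hm)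
  have h9 : ∑ a ∈ BX N, 8 * ∑ m ∈ Finset.Icc 1 N, G (nrm a) m ≤
      8 * ∑ n ∈ Finset.Icc 1 N, 8 * ∑ m ∈ Finset.Icc 1 N, G n m :=
    AH4.fib8 N (fun n => 8 * ∑ m ∈ Finset.Icc 1 N, G n m)
      (fun n => mul_nonneg (by norm_num) (Finset.sum_nonneg fun m _ => hG0 n m))
      (fun n hn => by
        rw [Finset.sum_eq_zero (fun m _ => hGn n m hn), mul_zero])
  have h10 : 8 * ∑ n ∈ Finset.Icc 1 N, 8 * ∑ m ∈ Finset.Icc 1 N, G n m =
      64 * ∑ n ∈ Finset.Icc 1 N, ∑ m ∈ Finset.Icc 1 N, G n m := by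
    rw [← Finset.mul_sum]; ring
  rw [h10] at h9
  have h11 := h7.trans (h8.trans h9)
  have h12 : ∑ n ∈ Finset.Icc 1 N, ∑ m ∈ Finset.Icc 1 N, G n m ≤
      C * (T ^ 2 + T * (u + 1) ^ 5) := h6
  linarith

/-- AH4: the second moment (from `hg_sq`, `btc_sum_int`) -/
theorem mq_le : ∃ C : ℝ, 0 < C ∧ ∀ (N : ℕ) (T κ u : ℝ), 1 ≤ κ → κ ≤ T → 1 ≤ T →
    T ≤ Real.exp (κ ^ 2) → 0 ≤ u →
    0 ≤ MQ N T u ∧ MQ N T u ≤ T / (2 * Real.pi) * SW cK u + C * κ * (u + 1) := by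
  obtain ⟨C0, hC0, hS, hb, hl⟩ := selb_cK
  obtain ⟨C1, hC1, h1⟩ := btc_sum_int cK C0 hS
  refine ⟨C1, hC1, fun N T κ u a1 a2 a3 a4 a5 => ?_⟩
  obtain ⟨b1, b2⟩ := h1 T κ u N a1 a3 a4 a5
  have hnn : ∀ t : ℝ, 0 ≤ (1 / 4 : ℝ) * ∑ a ∈ BX N, ‖wQ (bn T u t) a‖ ^ 2 := fun t => by
    positivity
  refine ⟨integral_nonneg hnn, le_trans ?_ b2⟩
  unfold MQ
  refine integral_mono_of_nonneg (Filter.Eventually.of_forall hnn) b1
    (Filter.Eventually.of_forall fun t => ?_)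
  simp only
  have c1 : ∑ a ∈ BX N, ‖wQ (bn T u t) a‖ ^ 2 ≤ ∑ a ∈ BX N, ‖wZ 1 (bn T u t) a‖ ^ 2 :=
    Finset.sum_le_sum fun a _ => pow_le_pow_left₀ (norm_nonneg _)
      ((wq_props (bn T u t)).2.2.2.1 a) 2
  have c2 := hg_sq 1 N (bn T u t)
  have c3 : ∑ n ∈ Finset.Icc 1 N, lamK2 n * ‖bn T u t n‖ ^ 2 =
      ∑ n ∈ Finset.Icc 1 N, (ArithmeticFunction.vonMangoldt n) ^ 2 *
      ‖cK n * ((Real.sqrt n : ℂ)⁻¹ * bt T u t (Real.log n))‖ ^ 2 := by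
    refine Finset.sum_congr rfl fun n _ => ?_
    rw [hl n, norm_mul, mul_pow]
    unfold bn
    ring
  rw [← c3]
  linarith

end H385
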