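import Pool.Agent.H385R9.AHDefs
import Pool.Agent.H385R9.AH2
import Pool.Agent.H385R9.AH3
import Pool.Agent.H385R9.AH4
import Pool.Agent.H385R9.AH12
import Pool.Agent.H385R9.AH13
import Pool.Agent.H385R9.AH14
import Pool.Agent.H385R9.AH15
import Pool.Agent.H385R4.AE8c

/-!
TEAM Q4, project AH (helper385), task AH16 (proved by helper88).
-/

open Complex Filter Topology Set MeasureTheory

set_option maxHeartbeats 4000000

namespace H385

open Pool.Agent.H304R3.HK (tc HC CS bb LamK psi bH aH LH Rep)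

/-- integrability of the short sum -/
theorem ah16_int (N : ℕ) (T κ u : ℝ) (hκ : 1 ≤ κ) (hκT : κ ≤ T) (hT : 1 ≤ T)
    (hTκ : T ≤ Real.exp (κ ^ 2)) (q : ZI) (χ : MulChar (RQ q) ℂ) :
    Integrable (fun t : ℝ => ‖(1 / 4 : ℂ) * SC (BX N) (wQ (bn T u t)) q χ‖ ^ 2) := by
  obtain ⟨C, hC, h⟩ := wq_int
  have hi : Integrable (fun t : ℝ => (1 / 16 * ∑ a ∈ BX N, ‖chiZ q χ a‖ ^ 2) *
      ∑ a ∈ BX N, ‖wQ (bn T u t) a‖ ^ 2) :=
    (integrable_finsetSum _ fun a _ => (h T κ u a hκ hκT hT hTκ).2.1).const_mul _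
  have hc : Continuous (fun t : ℝ => (1 / 4 : ℂ) * SC (BX N) (wQ (bn T u t)) q χ) := by
    unfold SC
    exact continuous_const.mul (continuous_finsetSum _ fun a _ =>
      ((h T κ u a hκ hκT hT hTκ).1).mul continuous_const)
  refine hi.mono' (hc.norm.pow 2).aestronglyMeasurable (Eventually.of_forall fun t => ?_)
  rw [Real.norm_of_nonneg (sq_nonneg _), norm_mul, mul_pow]
  have h1 : ‖SC (BX N) (wQ (bn T u t)) q χ‖ ≤
      ∑ a ∈ BX N, ‖wQ (bn T u t) a‖ * ‖chiZ q χ a‖ := by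
    unfold SC
    refine (norm_sum_le _ _).trans (le_of_eq ?_)
    exact Finset.sum_congr rfl fun a _ => norm_mul _ _
  have h2 := Finset.sum_mul_sq_le_sq_mul_sq (BX N) (fun a => ‖wQ (bn T u t) a‖)
    (fun a => ‖chiZ q χ a‖)
  have h3 : ‖SC (BX N) (wQ (bn T u t)) q χ‖ ^ 2 ≤
      (∑ a ∈ BX N, ‖wQ (bn T u t) a‖ ^ 2) * ∑ a ∈ BX N, ‖chiZ q χ a‖ ^ 2 :=
    (pow_le_pow_left₀ (norm_nonneg _) h1 2).trans h2
  have h4 : ‖(1 / 4 : ℂ)‖ ^ 2 = 1 / 16 := by norm_num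
  rw [h4]
  calc _ ≤ 1 / 16 * ((∑ a ∈ BX N, ‖wQ (bn T u t) a‖ ^ 2) * ∑ a ∈ BX N, ‖chiZ q χ a‖ ^ 2) :=
        mul_le_mul_of_nonneg_left h3 (by norm_num)
    _ = _ := by ring

/-- large `L` -/
theorem ah16_ev (S8 a s e0 ν : ℝ) (hS8 : 0 ≤ S8) (ha : 0 < a) (hs : 0 < s) (he0 : 0 < e0)
    (hν : 0 < ν) : ∃ L0 : ℝ, 2 ≤ L0 ∧ ∀ L : ℝ, L0 ≤ L →
      S8 * (L + 1) ^ 3 ≤ a ^ 2 * L ^ 4 ∧ Real.exp (-(s * L)) ≤ e0 ∧
      4 * Real.exp (-(s * L)) ≤ 1 ∧ (L + 1) * Real.exp (-(s * L)) ≤ ν := by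
  have hev : ∀ᶠ L : ℝ in atTop, 2 ≤ L ∧ S8 * (L + 1) ^ 3 ≤ a ^ 2 * L ^ 4 ∧
      Real.exp (-(s * L)) ≤ e0 ∧
      4 * Real.exp (-(s * L)) ≤ 1 ∧ (L + 1) * Real.exp (-(s * L)) ≤ ν := by
    filter_upwards [eventually_ge_atTop 2, eventually_ge_atTop (S8 * 8 / a ^ 2),
      pow_exp_ev 0 s e0 hs he0, pow_exp_ev 0 s (1 / 4) hs (by norm_num),
      pow_exp_ev 1 s ν hs hν] with L a1 a4 b1 b2 b3
    have ha2 : 0 < a ^ 2 := by positivity
    have a4' : S8 * 8 ≤ a ^ 2 * L := by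
      rw [div_le_iff₀ ha2] at a4
      linarith
    refine ⟨a1, ?_, by simpa using b1, ?_, by simpa using b3⟩
    · have h5 : (L + 1) ^ 3 ≤ 8 * L ^ 3 := by
        calc (L + 1) ^ 3 ≤ (2 * L) ^ 3 := pow_le_pow_left₀ (by linarith) (by linarith) 3
          _ = 8 * L ^ 3 := by ring
      calc S8 * (L + 1) ^ 3 ≤ S8 * (8 * L ^ 3) := mul_le_mul_of_nonneg_left h5 hS8
        _ = (S8 * 8) * L ^ 3 := by ring
        _ ≤ (a ^ 2 * L) * L ^ 3 := mul_le_mul_of_nonneg_right a4' (by positivity)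
        _ = _ := by ring
    · rw [pow_zero, one_mul] at b2
      linarith
  obtain ⟨L0, h0⟩ := eventually_atTop.mp hev
  exact ⟨max L0 2, le_max_right _ _, fun L hL => (h0 L ((le_max_left _ _).trans hL)).2⟩

/-- the square root term -/
theorem ah16_sqrt (a C1 μ T L u R : ℝ) (hμ : 0 < μ) (ha : 0 < a) (hC : 0 < C1) (hT : 1 ≤ T)
    (hu : 0 ≤ u) (huL : u ≤ L) (hR : R ≤ C1 * (T ^ 2 + T * (u + 1) ^ 5))
    (h2 : (8 * Real.sqrt (2 * C1 / μ)) ^ 2 * (L + 1) ^ 3 ≤ a ^ 2 * T) :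
    Real.sqrt (2 * R / μ) ≤ Real.sqrt (2 * C1 / μ) * T + a / 8 * T * (u + 1) := by
  set s : ℝ := Real.sqrt (2 * C1 / μ) with hs
  have hs0 : 0 ≤ s := Real.sqrt_nonneg _
  have hT0 : 0 < T := by linarith
  have e0 : Real.sqrt (2 * R / μ) ≤ Real.sqrt (2 * (C1 * (T ^ 2 + T * (u + 1) ^ 5)) / μ) := by
    apply Real.sqrt_le_sqrt
    gcongr
  refine e0.trans ?_
  have e1 : 2 * (C1 * (T ^ 2 + T * (u + 1) ^ 5)) / μ = 2 * C1 / μ * T ^ 2 +
      2 * C1 / μ * (T * (u + 1) ^ 5) := by ring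
  rw [e1]
  refine (sqrt_add_le_c _ _ (by positivity) (by positivity)).trans ?_
  have e2 : Real.sqrt (2 * C1 / μ * T ^ 2) = s * T := by
    rw [Real.sqrt_mul (by positivity), Real.sqrt_sq hT0.le]
  rw [e2]
  have e3 : Real.sqrt (2 * C1 / μ * (T * (u + 1) ^ 5)) ≤ a / 8 * T * (u + 1) := by
    rw [Real.sqrt_le_left (by positivity)]
    have hs2 : s ^ 2 = 2 * C1 / μ := Real.sq_sqrt (by positivity)
    have h5 : (u + 1) ^ 3 ≤ (L + 1) ^ 3 := pow_le_pow_left₀ (by linarith) (by linarith) 3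
    have h6 : (8 * s) ^ 2 * (u + 1) ^ 3 ≤ a ^ 2 * T :=
      (mul_le_mul_of_nonneg_left h5 (sq_nonneg _)).trans h2
    rw [← hs2]
    have h7 : s ^ 2 * (T * (u + 1) ^ 5) = ((8 * s) ^ 2 * (u + 1) ^ 3) * (T * (u + 1) ^ 2 / 64) := by
      ring
    have h8 : (a / 8 * T * (u + 1)) ^ 2 = (a ^ 2 * T) * (T * (u + 1) ^ 2 / 64) := by ring
    rw [h7, h8]
    exact mul_le_mul_of_nonneg_right h6 (by positivity)
  linarith

/-- the error term of the first moment -/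
theorem ah16_err (a C3 CM μ d1 e0 T u M ki x : ℝ) (hμ : 0 < μ) (hd : 0 < d1) (he0 : 0 < e0)
    (ha : 0 < a) (hC3 : 0 < C3) (hCM : 0 < CM) (hT : 1 ≤ T) (hu : 0 ≤ u) (hM : 0 ≤ M)
    (hMle : M ≤ CM * T * (u + 1)) (hki : ki ≤ μ * d1 ^ 2 * e0)
    (hx : x ≤ μ * d1 * a / (16 * C3 * CM)) (hda : d1 ≤ a / (16 * C3 * CM)) :
    C3 * (T / e0 + M * (ki / e0 + x)) / (μ * d1) ≤
      C3 / (μ * d1 * e0) * T + a / 8 * T * (u + 1) := by
  have hP : 0 < T * (u + 1) := by positivity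
  have k1 : ki / e0 ≤ μ * d1 ^ 2 := by
    rw [div_le_iff₀ he0]; exact hki
  have k2 : C3 * (M * (ki / e0)) / (μ * d1) ≤ a / 16 * T * (u + 1) := by
    have h1 : C3 * (M * (ki / e0)) ≤ C3 * (M * (μ * d1 ^ 2)) := by gcongr
    have h2 : C3 * (M * (μ * d1 ^ 2)) / (μ * d1) = C3 * M * d1 := by field_simp
    have h3 : C3 * M * d1 ≤ C3 * (CM * T * (u + 1)) * (a / (16 * C3 * CM)) := by gcongr
    have h4 : C3 * (CM * T * (u + 1)) * (a / (16 * C3 * CM)) = a / 16 * T * (u + 1) := by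
      field_simp
    calc _ ≤ C3 * (M * (μ * d1 ^ 2)) / (μ * d1) := by gcongr
      _ ≤ _ := by rw [h2]; linarith
  have k3 : C3 * (M * x) / (μ * d1) ≤ a / 16 * T * (u + 1) := by
    have h1 : C3 * (M * x) ≤ C3 * ((CM * T * (u + 1)) * (μ * d1 * a / (16 * C3 * CM))) := by
      refine mul_le_mul_of_nonneg_left ?_ hC3.le
      calc M * x ≤ M * (μ * d1 * a / (16 * C3 * CM)) := mul_le_mul_of_nonneg_left hx hM
        _ ≤ _ := mul_le_mul_of_nonneg_right hMle (by positivity)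
    have h2 : C3 * ((CM * T * (u + 1)) * (μ * d1 * a / (16 * C3 * CM))) / (μ * d1) =
        a / 16 * T * (u + 1) := by field_simp
    calc _ ≤ C3 * ((CM * T * (u + 1)) * (μ * d1 * a / (16 * C3 * CM))) / (μ * d1) := by gcongr
      _ = _ := h2
  calc C3 * (T / e0 + M * (ki / e0 + x)) / (μ * d1) =
      C3 / (μ * d1 * e0) * T + C3 * (M * (ki / e0)) / (μ * d1) + C3 * (M * x) / (μ * d1) := by
        field_simp
        ring
    _ ≤ _ := by linarith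

/-- AH16: the mean square over a large subset of the family (from everything above and
`subset_bound`) -/
theorem ah_int (μ δ a s : ℝ) (hμ : 0 < μ) (hμ1 : μ ≤ 1) (hδ : 0 < δ) (hδ1 : δ ≤ 1) (ha : 0 < a)
    (hs : 0 < s) (hs1 : s ≤ 1 / 2) :
    ∃ b C K0 X0 : ℝ, 0 ≤ b ∧ 0 < C ∧ 1 ≤ K0 ∧ 1 ≤ X0 ∧ ∀ (X Y N : ℕ) (T κ u : ℝ), X0 ≤ X →
      K0 * X ≤ Y → (Real.log X) ^ 4 ≤ T → 1 ≤ κ → κ ≤ T → 1 ≤ T → T ≤ Real.exp (κ ^ 2) → 0 ≤ u →
      u ≤ Real.log X → (N : ℝ) ≤ (X : ℝ) ^ (1 - s) → Tl N u ≤ 1 →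
      ∀ E : Finset (Σ q : ZI, MulChar (RQ q) ℂ), E ⊆ FS X Y → μ * Wm X Y ≤ ∑ p ∈ E, wF p →
      ∫ t : ℝ, ∑ p ∈ E, wF p * ‖∑' n : ℕ, aH (chiZ p.1 p.2) n * bn T u t n‖ ^ 2 ≤
        (∑ p ∈ E, wF p) * ((1 + 2 * δ) * YH cK δ C 1 T κ u + T * (a * (u + 1) + b)) := by
  obtain ⟨C1, hC1, hgram⟩ := gramZ
  obtain ⟨C2, hC2, hmq⟩ := mq_le
  obtain ⟨C3, hC3, hfirst⟩ := first_momentZ
  obtain ⟨C4, hC4, hpoint⟩ := aa_pointZ
  obtain ⟨Cw, hCw, hwt⟩ := wt_sq_int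
  obtain ⟨C0, hC0, hS, -, -⟩ := selb_cK
  obtain ⟨CS0, hCS0, hSW⟩ := SW_le cK C0 hS
  obtain ⟨C5, hC5, hwqi⟩ := wq_int
  obtain ⟨C6, hC6, hmass⟩ := ek_mass
  set CM : ℝ := CS0 + C2 with hCM
  have hCM0 : 0 < CM := by positivity
  set d1 : ℝ := min δ (a / (16 * C3 * CM)) with hd1
  have hd10 : 0 < d1 := lt_min hδ (by positivity)
  have hd1δ : d1 ≤ δ := min_le_left _ _
  have hd11 : d1 ≤ 1 := hd1δ.trans hδ1
  have hd1a : d1 ≤ a / (16 * C3 * CM) := min_le_right _ _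
  obtain ⟨K, μ', K0, e0, hK, hμ', hμ'1, hK0, he0, hek⟩ := ek_choice μ d1 hμ hμ1 hd10 hd11
  obtain ⟨P, hP0, hPS⟩ := smo_exists K
  obtain ⟨C7, hC7, hmass'⟩ := hmass K P hK hP0 hPS
  set s1 : ℝ := Real.sqrt (2 * C1 / μ') with hs1d
  have hs10 : 0 ≤ s1 := Real.sqrt_nonneg _
  obtain ⟨L0, hL02, hL0⟩ := ah16_ev ((8 * s1) ^ 2) a s e0 (μ' * d1 * a / (16 * C3 * CM))
    (sq_nonneg _) ha hs he0 (by positivity)
  set b : ℝ := 2 * s1 + 2 * (C3 / (μ' * d1 * e0)) + (1 + 1 / δ) * (C4 ^ 2 * (1 + Cw)) with hb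
  have hb0 : 0 ≤ b := by positivity
  refine ⟨b, C2, K0, Real.exp L0, hb0, hC2, hK0, Real.one_le_exp (by linarith), ?_⟩
  intro X Y N T κ u hX hKX hLT hκ hκT hT hTκ hu huL hN hTl E hE hEW
  have hT0 : 0 ≤ T := by linarith
  have hXpos : (0 : ℝ) < X := lt_of_lt_of_le (Real.exp_pos _) hX
  set L : ℝ := Real.log X with hLd
  have hL0L : L0 ≤ L := by
    rw [hLd, Real.le_log_iff_exp_le hXpos]; exact hX
  obtain ⟨v1, v2, v3, v4⟩ := hL0 L hL0L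
  have hL2 : 2 ≤ L := by linarith
  have hXexp : (X : ℝ) = Real.exp L := by rw [hLd, Real.exp_log hXpos]
  have hX4r : (4 : ℝ) ≤ X := by
    rw [hXexp]
    have h1 : Real.exp 2 ≤ Real.exp L := Real.exp_le_exp.mpr hL2
    have h2 := Real.quadratic_le_exp_of_nonneg (x := 2) (by norm_num)
    linarith
  have hX4 : 4 ≤ X := by exact_mod_cast hX4r
  have hX1 : 1 ≤ X := by omega
  have hXYr : (X : ℝ) ≤ Y := le_trans (le_mul_of_one_le_left hXpos.le hK0) hKX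
  have hXY : X ≤ Y := by exact_mod_cast hXYr
  -- length of the short sum
  have hNX : (N : ℝ) ≤ Real.exp (-(s * L)) * X := by
    refine hN.trans (le_of_eq ?_)
    rw [Real.rpow_def_of_pos hXpos, ← hLd]
    conv_rhs => rw [hXexp]
    rw [← Real.exp_add]
    congr 1
    ring
  have hNe0 : (N : ℝ) ≤ e0 * X := hNX.trans (mul_le_mul_of_nonneg_right v2 hXpos.le)
  have hN4r : 4 * (N : ℝ) ≤ X := by
    have := mul_le_mul_of_nonneg_right v3 hXpos.le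
    linarith
  have hN4 : 4 * N ≤ X := by exact_mod_cast hN4r
  -- the constants of the family
  obtain ⟨g1, g2, g3, g4, g5, g6⟩ := hek X Y hX4 hKX
  obtain ⟨-, m2, -⟩ := hmass' X Y hX4 hXY
  set W : ℝ := ∑ p ∈ EK K X Y, wF p with hW
  set WE : ℝ := ∑ p ∈ E, wF p with hWE
  set M : ℝ := MQ N T u with hM
  obtain ⟨hM0, hMle⟩ := hmq N T κ u hκ hκT hT hTκ hu
  rw [← hM] at hM0 hMle
  obtain ⟨hSW0, hSWle⟩ := hSW u hu
  have hwF0 : ∀ p : (Σ q : ZI, MulChar (RQ q) ℂ), 0 ≤ wF p := fun p => by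
    unfold wF; positivity
  have hWE0 : 0 ≤ WE := Finset.sum_nonneg fun p _ => hwF0 p
  have hMCM : M ≤ CM * T * (u + 1) := by
    refine hMle.trans ?_
    have hpi := Real.pi_gt_three
    have h1 : T / (2 * Real.pi) ≤ T := div_le_self hT0 (by linarith)
    have h2 : T / (2 * Real.pi) * SW cK u ≤ T * (CS0 * (u + 1)) :=
      mul_le_mul h1 hSWle hSW0 hT0
    have h3 : C2 * κ * (u + 1) ≤ C2 * T * (u + 1) := by gcongr
    calc _ ≤ T * (CS0 * (u + 1)) + C2 * T * (u + 1) := by linarith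
      _ = _ := by rw [hCM]; ring
  have hRle := hgram N T κ u hκ hκT hT hTκ hu
  have hR0 : 0 ≤ RQM N T u := by
    unfold RQM
    refine mul_nonneg (by norm_num) ?_
    exact Finset.sum_nonneg fun _ _ => Finset.sum_nonneg fun _ _ => sq_nonneg _
  set x : ℝ := (N : ℝ) * (L + 1) / X with hx
  have hx0 : 0 ≤ x := by positivity
  have hxle : x ≤ μ' * d1 * a / (16 * C3 * CM) := by
    refine le_trans ?_ v4
    rw [hx, div_le_iff₀ hXpos]
    calc (N : ℝ) * (L + 1) ≤ (Real.exp (-(s * L)) * X) * (L + 1) :=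
          mul_le_mul_of_nonneg_right hNX (by linarith)
      _ = _ := by ring
  have hKr : (0 : ℝ) < K := by exact_mod_cast hK
  set e : ℝ := C3 * (T / e0 + M * (1 / (K : ℝ) / e0 + x)) with hed
  have he : 0 ≤ e := by positivity
  -- the subset bound
  have hsub := subset_bound (EK K X Y) E (hE.trans (fs_subset_ek K X Y hK)) wF
    (fun p => AQ N T u p) (fun p _ => hwF0 p) M ((1 + μ' * d1 ^ 2) * W) (RQM N T u) e μ' d1
    hM0 hR0 he hμ' hd10 hd11 hμ'1 g1 (g5.trans hEW) le_rfl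
    (by
      have h := fourthZ (EK K X Y) wF (fun p _ => hwF0 p) (fun p => p.1) (fun p => p.2) N
        ((1 + μ' * d1 ^ 2) * W) (by positivity)
        (g6 (N ^ 2) (by
          have : ((N ^ 2 : ℕ) : ℝ) = (N : ℝ) ^ 2 := by push_cast; ring
          rw [this, Real.sqrt_sq (by positivity)]
          exact hNe0))
        (fun t => wQ (bn T u t)) (fun t a => (wq_props (bn T u t)).1 a)
        (fun t => (wq_props (bn T u t)).2.1)
        (fun a => (hwqi T κ u a hκ hκT hT hTκ).1)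
        (fun a => (hwqi T κ u a hκ hκT hT hTκ).2.1)
      exact h)
    (by
      have h := hfirst K X Y N T κ u hK hX1 hXY hN4 hκ hκT hT hTκ hu
      rw [← hM] at h
      refine le_trans ?_ h
      have h1 : W * M ≤ TotQ X Y * M := mul_le_mul_of_nonneg_right m2 hM0
      have h2 : C3 * (T * (Real.log ((Y : ℝ) / X) + 1) +
          M * ((Real.log ((Y : ℝ) / X) + 1) / K + (N : ℝ) * (Real.log X + 1) / X)) ≤ e * W := by
        have hℓ : Real.log ((Y : ℝ) / X) + 1 ≤ e0⁻¹ * W := g3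
        have hWpos : 0 < W := g1
        have h3 : T * (Real.log ((Y : ℝ) / X) + 1) ≤ T / e0 * W := by
          calc _ ≤ T * (e0⁻¹ * W) := mul_le_mul_of_nonneg_left hℓ hT0
            _ = _ := by ring
        have h4 : (Real.log ((Y : ℝ) / X) + 1) / K ≤ (1 / (K : ℝ) / e0) * W := by
          calc _ ≤ (e0⁻¹ * W) / K := by gcongr
            _ = _ := by ring
        have h5 : (N : ℝ) * (Real.log X + 1) / X ≤ x * W := by
          rw [← hLd, ← hx]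
          exact le_mul_of_one_le_right hx0 g2
        calc _ ≤ C3 * (T / e0 * W + M * ((1 / (K : ℝ) / e0) * W + x * W)) := by gcongr
          _ = _ := by rw [hed]; ring
      linarith)
  -- the pointwise bound
  obtain ⟨w1, w2⟩ := hwt T hT0
  have hpt : ∀ t : ℝ, ∑ p ∈ E, wF p * ‖∑' n : ℕ, aH (chiZ p.1 p.2) n * bn T u t n‖ ^ 2 ≤
      ∑ p ∈ E, wF p * ((1 + δ) * ‖(1 / 4 : ℂ) * SC (BX N) (wQ (bn T u t)) p.1 p.2‖ ^ 2 +
        (1 + 1 / δ) * (C4 ^ 2 * wt T t ^ 2)) := by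
    intro t
    refine Finset.sum_le_sum fun p hp => mul_le_mul_of_nonneg_left ?_ (hwF0 p)
    obtain ⟨hq0, hXq, hqY, hpr, him⟩ := (fs_mem X Y p).1 (hE hp)
    have hHC := hc_of_prim p.1 hq0 p.2 hpr him
    have h1 := hpoint p.1 p.2 hHC N T u t hT0 hu hTl
    set S := (1 / 4 : ℂ) * SC (BX N) (wQ (bn T u t)) p.1 p.2 with hSd
    set F := ∑' n : ℕ, aH (chiZ p.1 p.2) n * bn T u t n with hF
    have h2 : F = S + (F - S) := by ring
    have h4 : ‖F - S‖ ^ 2 ≤ C4 ^ 2 * wt T t ^ 2 := by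
      have := pow_le_pow_left₀ (norm_nonneg _) h1 2
      refine this.trans (le_of_eq ?_)
      ring
    rw [h2]
    refine (FamLS.sq_add_le S (F - S) δ hδ).trans ?_
    have h5 : 0 ≤ 1 + 1 / δ := by positivity
    have h6 := mul_le_mul_of_nonneg_left h4 h5
    linarith
  have hIp : ∀ p : (Σ q : ZI, MulChar (RQ q) ℂ),
      Integrable (fun t : ℝ => ‖(1 / 4 : ℂ) * SC (BX N) (wQ (bn T u t)) p.1 p.2‖ ^ 2) :=
    fun p => ah16_int N T κ u hκ hκT hT hTκ p.1 p.2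
  have hIw : Integrable (fun t : ℝ => (1 + 1 / δ) * (C4 ^ 2 * wt T t ^ 2)) :=
    (w1.const_mul _).const_mul _
  have hIG : ∀ p : (Σ q : ZI, MulChar (RQ q) ℂ), Integrable (fun t : ℝ => wF p *
      ((1 + δ) * ‖(1 / 4 : ℂ) * SC (BX N) (wQ (bn T u t)) p.1 p.2‖ ^ 2 +
        (1 + 1 / δ) * (C4 ^ 2 * wt T t ^ 2))) :=
    fun p => (((hIp p).const_mul _).add hIw).const_mul _
  have hval : ∀ p : (Σ q : ZI, MulChar (RQ q) ℂ), ∫ t : ℝ, wF p *
      ((1 + δ) * ‖(1 / 4 : ℂ) * SC (BX N) (wQ (bn T u t)) p.1 p.2‖ ^ 2 +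
        (1 + 1 / δ) * (C4 ^ 2 * wt T t ^ 2)) =
      (1 + δ) * (wF p * AQ N T u p) +
        wF p * ((1 + 1 / δ) * (C4 ^ 2 * ∫ t : ℝ, wt T t ^ 2)) := by
    intro p
    rw [integral_const_mul, integral_add ((hIp p).const_mul _) hIw, integral_const_mul,
      integral_const_mul, integral_const_mul]
    unfold AQ
    ring
  have hstep : ∫ t : ℝ, ∑ p ∈ E, wF p * ‖∑' n : ℕ, aH (chiZ p.1 p.2) n * bn T u t n‖ ^ 2 ≤
      (1 + δ) * (∑ p ∈ E, wF p * AQ N T u p) +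
        WE * ((1 + 1 / δ) * (C4 ^ 2 * ∫ t : ℝ, wt T t ^ 2)) := by
    calc _ ≤ ∫ t : ℝ, ∑ p ∈ E, wF p *
        ((1 + δ) * ‖(1 / 4 : ℂ) * SC (BX N) (wQ (bn T u t)) p.1 p.2‖ ^ 2 +
        (1 + 1 / δ) * (C4 ^ 2 * wt T t ^ 2)) := by
          refine integral_mono_of_nonneg ?_ (integrable_finsetSum _ fun p _ => hIG p) ?_
          · exact Eventually.of_forall fun t => Finset.sum_nonneg fun p _ =>
              mul_nonneg (hwF0 p) (sq_nonneg _)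
          · exact Eventually.of_forall hpt
      _ = _ := by
          rw [integral_finsetSum _ fun p _ => hIG p]
          simp only [hval]
          rw [Finset.sum_add_distrib, ← Finset.mul_sum, ← Finset.sum_mul]
  refine hstep.trans ?_
  -- final computation
  have p1 : (1 + δ) * ((1 + 2 * d1) * M) ≤ (1 + 2 * δ) * YH cK δ C2 1 T κ u := by
    have h1 : (1 + δ) * (T / (2 * Real.pi) * SW cK u + C2 * κ * (u + 1)) ≤
        YH cK δ C2 1 T κ u := by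
      unfold YH
      have : 0 ≤ (1 + 1 / δ) * ((T + C2) * (4 * (Gq 1 u + 1) ^ 2)) := by positivity
      linarith
    have h2 : (1 + δ) * M ≤ YH cK δ C2 1 T κ u :=
      (mul_le_mul_of_nonneg_left hMle (by positivity)).trans h1
    calc _ = (1 + 2 * d1) * ((1 + δ) * M) := by ring
      _ ≤ (1 + 2 * δ) * ((1 + δ) * M) := mul_le_mul_of_nonneg_right (by linarith) (by positivity)
      _ ≤ _ := mul_le_mul_of_nonneg_left h2 (by positivity)
  have p2 := ah16_sqrt a C1 μ' T L u (RQM N T u) hμ' ha hC1 hT hu huL hRle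
    (v1.trans (mul_le_mul_of_nonneg_left hLT (sq_nonneg _)))
  rw [← hs1d] at p2
  have p3 := ah16_err a C3 CM μ' d1 e0 T u M (1 / (K : ℝ)) x hμ' hd10 he0 ha hC3 hCM0 hT hu hM0
    hMCM g4 hxle hd1a
  rw [← hed] at p3
  have p4 : C4 ^ 2 * ∫ t : ℝ, wt T t ^ 2 ≤ C4 ^ 2 * (1 + Cw) * T := by
    have : ∫ t : ℝ, wt T t ^ 2 ≤ (1 + Cw) * T := by
      have h1 : Cw * 1 ≤ Cw * T := mul_le_mul_of_nonneg_left hT hCw.le
      linarith
    calc _ ≤ C4 ^ 2 * ((1 + Cw) * T) := mul_le_mul_of_nonneg_left this (sq_nonneg _)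
      _ = _ := by ring
  have q2 : (1 + δ) * Real.sqrt (2 * RQM N T u / μ') ≤ 2 * s1 * T + a / 4 * T * (u + 1) := by
    calc _ ≤ 2 * (s1 * T + a / 8 * T * (u + 1)) :=
          mul_le_mul (by linarith) p2 (Real.sqrt_nonneg _) (by norm_num)
      _ = _ := by ring
  have q3 : (1 + δ) * (e / (μ' * d1)) ≤ 2 * (C3 / (μ' * d1 * e0)) * T + a / 4 * T * (u + 1) := by
    calc _ ≤ 2 * (C3 / (μ' * d1 * e0) * T + a / 8 * T * (u + 1)) :=
          mul_le_mul (by linarith) p3 (by positivity) (by norm_num)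
      _ = _ := by ring
  have q4 : (1 + 1 / δ) * (C4 ^ 2 * ∫ t : ℝ, wt T t ^ 2) ≤
      (1 + 1 / δ) * (C4 ^ 2 * (1 + Cw)) * T := by
    calc _ ≤ (1 + 1 / δ) * (C4 ^ 2 * (1 + Cw) * T) :=
          mul_le_mul_of_nonneg_left p4 (by positivity)
      _ = _ := by ring
  have q5 : 0 ≤ a / 2 * T * (u + 1) := by positivity
  have hfin : (1 + δ) * ((1 + 2 * d1) * M + Real.sqrt (2 * RQM N T u / μ') + e / (μ' * d1)) +
      (1 + 1 / δ) * (C4 ^ 2 * ∫ t : ℝ, wt T t ^ 2) ≤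
      (1 + 2 * δ) * YH cK δ C2 1 T κ u + T * (a * (u + 1) + b) := by
    have e5 : T * (a * (u + 1) + b) = a * T * (u + 1) + 2 * s1 * T +
        2 * (C3 / (μ' * d1 * e0)) * T + (1 + 1 / δ) * (C4 ^ 2 * (1 + Cw)) * T := by
      rw [hb]; ring
    rw [e5]
    have e6 : (1 + δ) * ((1 + 2 * d1) * M + Real.sqrt (2 * RQM N T u / μ') + e / (μ' * d1)) =
        (1 + δ) * ((1 + 2 * d1) * M) + (1 + δ) * Real.sqrt (2 * RQM N T u / μ') +
        (1 + δ) * (e / (μ' * d1)) := by ring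
    rw [e6]
    linarith
  calc (1 + δ) * (∑ p ∈ E, wF p * AQ N T u p) +
        WE * ((1 + 1 / δ) * (C4 ^ 2 * ∫ t : ℝ, wt T t ^ 2)) ≤
      (1 + δ) * (WE * ((1 + 2 * d1) * M + Real.sqrt (2 * RQM N T u / μ') + e / (μ' * d1))) +
        WE * ((1 + 1 / δ) * (C4 ^ 2 * ∫ t : ℝ, wt T t ^ 2)) := by
        have := mul_le_mul_of_nonneg_left hsub (show 0 ≤ 1 + δ by positivity)
        linarith
    _ = WE * ((1 + δ) * ((1 + 2 * d1) * M + Real.sqrt (2 * RQM N T u / μ') + e / (μ' * d1)) +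
      (1 + 1 / δ) * (C4 ^ 2 * ∫ t : ℝ, wt T t ^ 2)) := by ring
    _ ≤ _ := mul_le_mul_of_nonneg_left hfin hWE0

end H385
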