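import Pool.Agent.H385R9.AHAux
import Pool.Agent.H385R2.FamAbsD
import Pool.Agent.H385R2.NLowD
import Pool.Agent.H385R3.CycNum
import Pool.Agent.H385R9.AH16
import Pool.Agent.H385R9.AH17a

/-!
TEAM Q4, project AH (helper385): the kernel sums over a large subset of the family.
-/

open Complex Filter Topology Set MeasureTheory
open H370 (zset mult NN Nd Ns)

set_option maxHeartbeats 4000000

namespace H385

open Pool.Agent.H304R3.HK (tc HC CS bb LamK psi bH aH LH tc_star_mul one_le_norm_tc)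

theorem ah_core (γ β ε μ : ℝ) (h0 : 0 < γ) (hπ : γ < Real.pi) (hβ : 0 < β) (hβ1 : β < 2)
    (hε : 0 < ε) (hμ : 0 < μ) (hμ1 : μ ≤ 1) : ∃ K0 η X0 : ℝ, 1 ≤ K0 ∧ 0 < η ∧ 1 ≤ X0 ∧
      ∀ (X Y : ℕ) (T : ℝ), X0 ≤ X → K0 * X ≤ Y → (Y : ℝ) ≤ (X : ℝ) ^ (1 + η) →
      (Real.log X) ^ 4 ≤ T → T ≤ (X : ℝ) ^ η → 0 < Wm X Y ∧ 1 ≤ T ∧
      ∀ E : Finset (Σ q : ZI, MulChar (RQ q) ℂ), E ⊆ FS X Y → μ * Wm X Y ≤ ∑ p ∈ E, wF p →
      0 < ∑ p ∈ E, wF p ∧
      (∑ p ∈ E, wF p * (2 * (NN (LH (chiZ p.1 p.2)) T (2 * T) : ℝ) -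
          (Ns (LH (chiZ p.1 p.2)) T (2 * T) : ℝ)) ≤
        (2 * Rw γ 0 / β + β * (∫ α in (0 : ℝ)..1, α * Rw γ α) + ε) *
        ∑ p ∈ E, wF p * (NN (LH (chiZ p.1 p.2)) T (2 * T) : ℝ)) ∧
      (∑ p ∈ E, wF p * (3 * (NN (LH (chiZ p.1 p.2)) T (2 * T) : ℝ) -
          2 * (Nd (LH (chiZ p.1 p.2)) T (2 * T) : ℝ)) ≤
        (2 * Rw γ 0 / β + β * (∫ α in (0 : ℝ)..1, α * Rw γ α) + ε) *
        ∑ p ∈ E, wF p * (NN (LH (chiZ p.1 p.2)) T (2 * T) : ℝ)) := by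
  classical
  obtain ⟨A, hA1, hgood⟩ := Pool.Agent.H304R3.HK.goodH
  obtain ⟨CS0, hCS0, hS, hcK, hlam⟩ := selb_cK
  obtain ⟨C1, hC1, hfam⟩ := fam_abstract_D γ h0 hπ 2 A (by norm_num) hA1
  obtain ⟨C1', hC1', hfam'⟩ := fam_abstract_d_D γ h0 hπ 2 A (by norm_num) hA1
  obtain ⟨C2, hC2, hlow⟩ := N_lower_D 2 A (by norm_num) hA1
  have hJ0' : 0 ≤ ∫ α in (0 : ℝ)..1, α * Rw γ α := I1_nonneg γ h0 hπ
  obtain ⟨J, hJ⟩ : ∃ J : ℝ, J = ∫ α in (0 : ℝ)..1, α * Rw γ α := ⟨_, rfl⟩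
  rw [← hJ] at hJ0' ⊢
  have hJ0 : 0 ≤ J := hJ0'
  have hR0 : 0 ≤ Rw γ 0 := Rw_nonneg γ h0 hπ 0
  obtain ⟨CC, hCC0, hCC1, hCC2⟩ : ∃ CC : ℝ, 0 < CC ∧ C1 ≤ CC ∧ C1' ≤ CC :=
    ⟨max C1 C1', lt_max_of_lt_left hC1, le_max_left _ _, le_max_right _ _⟩
  obtain ⟨ε1, L0, hε1, hL0, hnum⟩ := cyc_num (4 * Rw γ 0) (2 * β * J) β (2 * ε) CC C2
    (by positivity) (by positivity) hβ (by positivity) hCC0 hC2
  obtain ⟨δ, hδ, hδ1, hδ2, hδ3⟩ : ∃ δ : ℝ, 0 < δ ∧ δ ≤ 1 / 4 ∧ 2 * δ * (2 * β * J) ≤ ε1 / 4 ∧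
      2 * (β / 2) * J * δ ≤ ε1 / 16 / 4 := by
    refine ⟨min (1 / 4) (ε1 / 64 / (2 * (2 * β * J) + 1)), lt_min (by norm_num) (by positivity),
      min_le_left _ _, ?_, ?_⟩
    · have h1 : (2 * (2 * β * J) + 1) * (ε1 / 64 / (2 * (2 * β * J) + 1)) = ε1 / 64 := by
        field_simp
      calc 2 * min (1 / 4) (ε1 / 64 / (2 * (2 * β * J) + 1)) * (2 * β * J) =
          (2 * (2 * β * J)) * min (1 / 4) (ε1 / 64 / (2 * (2 * β * J) + 1)) := by ring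
        _ ≤ (2 * (2 * β * J) + 1) * (ε1 / 64 / (2 * (2 * β * J) + 1)) := by
            gcongr
            · linarith
            · exact min_le_right _ _
        _ ≤ _ := by rw [h1]; linarith
    · have h1 : (2 * (2 * β * J) + 1) * (ε1 / 64 / (2 * (2 * β * J) + 1)) = ε1 / 64 := by
        field_simp
      have h2 : 0 ≤ β * J := by positivity
      calc 2 * (β / 2) * J * min (1 / 4) (ε1 / 64 / (2 * (2 * β * J) + 1)) ≤
          (2 * (2 * β * J) + 1) * (ε1 / 64 / (2 * (2 * β * J) + 1)) := by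
            gcongr
            · linarith
            · exact min_le_right _ _
        _ ≤ _ := by rw [h1]; linarith
  have hδ1' : δ ≤ 1 := by linarith
  obtain ⟨a, ha, ha1, hab⟩ := ah17_int γ β (ε1 / 2) h0 hπ hβ hβ1 (by positivity)
  obtain ⟨s, hs⟩ : ∃ s : ℝ, s = (2 - β) / 8 := ⟨_, rfl⟩
  have hs0 : 0 < s := by rw [hs]; linarith
  have hs1 : s ≤ 1 := by rw [hs]; linarith
  have hs2 : s ≤ 1 / 2 := by rw [hs]; linarith
  have hβs : β = 2 - 8 * s := by rw [hs]; ring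
  obtain ⟨b, C5, K1, X1, hb, hC5, hK1, hX1, hint⟩ := ah_int μ δ a s hμ hμ1 hδ hδ1' ha hs0 hs2
  obtain ⟨Lab, hLab1, hLab⟩ := hab b hb
  obtain ⟨cw, Cw, hcw, hCw, hWm⟩ := Wm_inf
  obtain ⟨L1, hL1, hpoint⟩ := YH_point cK CS0 hS (ε1 / 4) C5 (by positivity) hC5 δ hδ hδ1'
  obtain ⟨L2, η2, hL2, hη2, hYint⟩ := YH_integral cK CS0 hS γ (β / 2) (ε1 / 16) C5 h0 hπ
    (by positivity) (by linarith) (by positivity) hC5 δ hδ hδ1' (by rw [← hJ]; exact hδ3)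
  rw [← hJ] at hYint
  obtain ⟨L3, hL3, htail⟩ := he_tail s hs0
  obtain ⟨C0, hC01, hheight⟩ := ahx_height 0 (min (min ε1 η2) (1 / 8) / 2) (by positivity)
  obtain ⟨η, hη, hηs, hηe, hη1⟩ : ∃ η : ℝ, 0 < η ∧ η ≤ s / 3 ∧ η ≤ ε1 ∧ η ≤ 1 :=
    ⟨min (min (s / 3) ε1) 1, by positivity, (min_le_left _ _).trans (min_le_left _ _),
      (min_le_left _ _).trans (min_le_right _ _), min_le_right _ _⟩
  obtain ⟨Lb, hLb⟩ : ∃ Lb : ℝ, Lb = L0 + L1 + L2 + L3 + 1 / β + Lab +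
    2 * (Real.sqrt a + Real.sqrt b) / ε1 + 2 / s := ⟨_, rfl⟩
  have hπ0 := Real.pi_pos
  have hq1 : 0 < 1 / β := by positivity
  have hq2 : 0 ≤ 2 * (Real.sqrt a + Real.sqrt b) / ε1 := by positivity
  have hq3 : 0 < 2 / s := by positivity
  have hLb0 : 1 ≤ Lb := by linarith
  obtain ⟨KK, hKK⟩ : ∃ KK : ℝ, KK = (Cw + 1) / cw := ⟨_, rfl⟩
  refine ⟨max K1 (Real.exp KK), η, max X1 (Real.exp (Real.exp Lb + 2 * C0 + 1)),
    le_max_of_le_left hK1, hη, le_max_of_le_left hX1, ?_⟩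
  intro X Y T hXX hXY hYX hT4 hTX
  have hXr : (1 : ℝ) ≤ X := hX1.trans ((le_max_left _ _).trans hXX)
  have hX : 1 ≤ X := by exact_mod_cast hXr
  have hX0 : (0 : ℝ) < X := by linarith
  have hXYr : (X : ℝ) ≤ Y := by
    refine le_trans ?_ hXY
    exact le_mul_of_one_le_left hX0.le (hK1.trans (le_max_left _ _))
  have hXYn : X ≤ Y := by exact_mod_cast hXYr
  have hY0 : (0 : ℝ) < Y := by linarith
  have hY1 : (1 : ℝ) ≤ Y := by linarith
  have hlX0 : 0 ≤ Real.log X := Real.log_nonneg hXr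
  have hsq := Real.sqrt_nonneg (Real.log X)
  have hlXbig : Real.exp Lb + 2 * C0 + 1 ≤ Real.log X := by
    rw [Real.le_log_iff_exp_le hX0]
    exact (le_max_right _ _).trans hXX
  have heLb := Real.exp_pos Lb
  have hlX1' : 1 ≤ Real.log X := by linarith
  have hl4 : Real.log X ^ 2 ≤ Real.log X ^ 4 := pow_le_pow_right₀ hlX1' (by norm_num)
  have hTC0 : C0 * (1 + Real.sqrt (Real.log X)) ≤ T := by
    have h1 : Real.sqrt (Real.log X) ≤ Real.log X := by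
      rw [Real.sqrt_le_left (by linarith)]
      nlinarith
    have h2 : C0 * (1 + Real.sqrt (Real.log X)) ≤ C0 * (2 * Real.log X) :=
      mul_le_mul_of_nonneg_left (by linarith) (by linarith)
    have h3 : C0 * (2 * Real.log X) ≤ Real.log X ^ 2 := by nlinarith
    linarith
  have hexT : Real.exp Lb ≤ T := by
    have h3 : Real.exp Lb ≤ Real.log X ^ 2 := by nlinarith
    linarith
  obtain ⟨-, hT1, hκT0⟩ := hheight X T hXr hTC0
  have hT0 : 0 < T := by linarith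
  have hLbT : Lb ≤ Real.log T := by
    rw [Real.le_log_iff_exp_le hT0]; exact hexT
  have hlogTX : Real.log T ≤ η * Real.log X := by
    have := Real.log_le_log hT0 hTX
    rwa [Real.log_rpow hX0] at this
  have hlogTX2 : Real.log T ≤ Real.log X := by
    refine hlogTX.trans ?_
    calc η * Real.log X ≤ 1 * Real.log X := mul_le_mul_of_nonneg_right hη1 hlX0
      _ = Real.log X := one_mul _
  have hLbX : Lb ≤ Real.log X := hLbT.trans hlogTX2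
  have hlX1 : 0 < Real.log X := by linarith
  have hlogY : Real.log Y ≤ (1 + η) * Real.log X := by
    have := Real.log_le_log hY0 hYX
    rwa [Real.log_rpow hX0] at this
  have hlogXY : Real.log X ≤ Real.log Y := Real.log_le_log hX0 hXYr
  obtain ⟨ℒ, hℒd⟩ : ∃ ℒ : ℝ, ℒ = Real.log (Real.sqrt Y * T) := ⟨_, rfl⟩
  have hsY : 0 < Real.sqrt (Y : ℝ) := Real.sqrt_pos.mpr hY0
  have hℒe : ℒ = 1 / 2 * Real.log Y + Real.log T := by
    rw [hℒd, Real.log_mul hsY.ne' hT0.ne', Real.log_sqrt hY0.le]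
    ring
  have hℒLb : Lb ≤ ℒ := by linarith
  have hℒ1 : 1 ≤ ℒ := hLb0.trans hℒLb
  have hℒ0 : 0 < ℒ := by linarith
  have hℒL0 : L0 ≤ ℒ := by linarith
  have hℒL1 : L1 ≤ ℒ := by linarith
  have hℒL2 : L2 ≤ 2 * ℒ := by linarith
  have hℒL3 : L3 ≤ 2 * ℒ := by linarith
  have hℒP : Real.log ((1 : ℕ) : ℝ) ≤ 2 * ℒ := by
    rw [Nat.cast_one, Real.log_one]
    linarith
  have hℒP2 : Real.log ((1 : ℕ) : ℝ) ≤ 2 * (2 * ℒ) := by
    rw [Nat.cast_one, Real.log_one]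
    linarith
  have hℒab : Lab ≤ ℒ := by linarith
  have hΛ1 : 1 ≤ β * ℒ := by
    have : 1 / β ≤ ℒ := by linarith
    rw [div_le_iff₀ hβ] at this
    linarith
  have hTℒ : T ≤ Real.exp (2 * ℒ) := by
    have h1 : Real.log T ≤ 2 * ℒ := by linarith
    rwa [Real.log_le_iff_le_exp hT0] at h1
  obtain ⟨κ, hκd⟩ : ∃ κ : ℝ, κ = 4 * Real.sqrt (2 * ℒ) := ⟨_, rfl⟩
  obtain ⟨p1, p2, p3, p4, p5, p6⟩ := ahx_param (β / 2) (2 * ℒ) T κ (by linarith) (by linarith)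
    hκd hTℒ
  have hκ0 : 0 ≤ κ := by linarith
  have hlXT : Real.log ((X : ℝ) * T) = Real.log X + Real.log T :=
    Real.log_mul hX0.ne' hT0.ne'
  have hℒXT : ℒ ≤ Real.log ((X : ℝ) * T) := by
    have h1 : (1 + η) * Real.log X ≤ 2 * Real.log X :=
      mul_le_mul_of_nonneg_right (by linarith) hlX0
    rw [hlXT, hℒe]
    linarith
  have hκXT : κ ≤ 2 * (4 * Real.sqrt (Real.log ((X : ℝ) * T))) := by
    have h1 : Real.sqrt (2 * ℒ) ≤ 2 * Real.sqrt (Real.log ((X : ℝ) * T)) := by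
      rw [Real.sqrt_le_left (by positivity), mul_pow, Real.sq_sqrt (by linarith)]
      linarith
    rw [hκd]
    linarith
  have hκm : κ ≤ min (min ε1 η2) (1 / 8) * T := by linarith
  have hκ1 : κ ≤ ε1 * T := hκm.trans (by
    refine mul_le_mul_of_nonneg_right ?_ hT0.le
    exact (min_le_left _ _).trans (min_le_left _ _))
  have hκ2 : κ ≤ η2 * T := hκm.trans (by
    refine mul_le_mul_of_nonneg_right ?_ hT0.le
    exact (min_le_left _ _).trans (min_le_right _ _))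
  have hκ8 : 8 * κ ≤ T := by
    have : κ ≤ 1 / 8 * T := hκm.trans (by
      refine mul_le_mul_of_nonneg_right ?_ hT0.le
      exact min_le_right _ _)
    linarith
  have hκT1 : κ ≤ T := by linarith
  have p5' : ℒ ^ 2 * Real.exp (β * ℒ - κ ^ 2 / 2) ≤ Real.exp (-(β * ℒ)) := by
    have e : β / 2 * (2 * ℒ) = β * ℒ := by ring
    rw [e] at p5
    refine le_trans ?_ p5
    refine mul_le_mul_of_nonneg_right ?_ (Real.exp_pos _).le
    exact pow_le_pow_left₀ hℒ0.le (by linarith) 2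
  have p6' : ℒ ^ 2 * Real.exp (-κ ^ 2 / 2) ≤ 1 := by
    refine le_trans ?_ p6
    refine mul_le_mul_of_nonneg_right ?_ (Real.exp_pos _).le
    exact pow_le_pow_left₀ hℒ0.le (by linarith) 2
  -- the mass
  have hWpos : 0 < Wm X Y := by
    refine lt_of_lt_of_le ?_ (hWm X Y hX hXYn)
    have h1 : KK ≤ Real.log ((Y : ℝ) / X) := by
      rw [Real.le_log_iff_exp_le (by positivity), le_div_iff₀ hX0]
      refine le_trans ?_ hXY
      exact mul_le_mul_of_nonneg_right (le_max_right _ _) hX0.le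
    rw [hKK, div_le_iff₀ hcw] at h1
    linarith
  refine ⟨hWpos, hT1, fun E hE hWE => ?_⟩
  obtain ⟨W, hWd⟩ : ∃ W : ℝ, W = ∑ p ∈ E, wF p := ⟨_, rfl⟩
  rw [← hWd]
  have hW0 : 0 < W := by
    rw [hWd]
    exact lt_of_lt_of_le (mul_pos hμ hWpos) hWE
  obtain ⟨θ, hθ⟩ : ∃ θ : ℝ, θ = 1 + 2 * δ := ⟨_, rfl⟩
  have hθ1 : 1 ≤ θ := by rw [hθ]; linarith
  have hθ3 : θ ≤ 2 := by rw [hθ]; linarith
  have hθ0 : 0 ≤ θ := by linarith
  -- length of the short sum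
  obtain ⟨N, hNb, hN⟩ := htail (β * ℒ) (2 * ℒ) hℒL3 (by positivity) (by
    have h1 : β * ℒ ≤ 2 * ℒ := mul_le_mul_of_nonneg_right hβ1.le hℒ0.le
    linarith)
  have hℒup : ℒ ≤ (1 / 2 + 3 / 2 * η) * Real.log X := by
    rw [hℒe]
    exact ahx_up _ _ _ _ hlogY hlogTX
  have hs2x : 2 / s ≤ Real.log X := by linarith
  obtain ⟨hNX0, hβℒX⟩ := ah17_short β s η (Real.log X) ℒ hβ hs0 hβs hη hηs hs2x hℒ0.le hℒup N hNb
  have hNX : (N : ℝ) ≤ (X : ℝ) ^ (1 - s) := by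
    rw [Real.rpow_def_of_pos hX0, mul_comm]
    exact hNX0
  have hnP : 1 ≤ 1 := le_refl 1
  obtain ⟨y1, y2, hy1, hy2, m2', m5⟩ := hpoint 1 T κ ℒ hnP hT1 hℒL1 hℒP hκ0 hκT1
  have m4 := hYint 1 T κ (2 * ℒ) hnP hT1 hℒL2 hℒP2 hκ0 hκ2
  rw [show β / 2 * (2 * ℒ) = β * ℒ by ring] at m4
  obtain ⟨YY, hYY⟩ : ∃ YY : ℝ → ℝ, YY = fun u => θ * YH cK δ C5 1 T κ u +
    T * (a * (u + 1) + b) := ⟨_, rfl⟩
  have hYYu : ∀ u, YY u = θ * YH cK δ C5 1 T κ u + T * (a * (u + 1) + b) := fun u => by rw [hYY]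
  have m2 : ∀ u ∈ Set.Icc 0 (β * ℒ), YY u ≤ T * ((θ * y1 + a) * (u + 1) + (θ * y2 + b)) := by
    intro u hu
    have := mul_le_mul_of_nonneg_left (m2' u hu.1) hθ0
    rw [hYYu]
    refine (add_le_add_left this _).trans (le_of_eq ?_)
    ring
  have hsadd : ∀ x y : ℝ, 0 ≤ x → 0 ≤ y → Real.sqrt (x + y) ≤ Real.sqrt x + Real.sqrt y := by
    intro x y hx hy
    rw [Real.sqrt_le_left (by positivity), add_sq, Real.sq_sqrt hx, Real.sq_sqrt hy]
    have : 0 ≤ Real.sqrt x * Real.sqrt y := by positivity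
    linarith
  have m5' : Real.sqrt (θ * y1 + a) + Real.sqrt (θ * y2 + b) ≤ ε1 * ℒ := by
    have g1 := hsadd (θ * y1) a (by positivity) ha.le
    have g2 := hsadd (θ * y2) b (by positivity) hb
    rw [Real.sqrt_mul hθ0] at g1 g2
    have h1 : Real.sqrt θ ≤ 2 := by
      rw [Real.sqrt_le_left (by norm_num)]
      linarith
    have h2 : 0 ≤ Real.sqrt y1 + Real.sqrt y2 := by positivity
    have h3 : Real.sqrt θ * (Real.sqrt y1 + Real.sqrt y2) ≤ 2 * (ε1 / 4 * ℒ) :=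
          mul_le_mul h1 m5 h2 (by norm_num)
    have h4 : Real.sqrt a + Real.sqrt b ≤ ε1 / 2 * ℒ := by
      have h5 : 2 * (Real.sqrt a + Real.sqrt b) / ε1 ≤ ℒ := by linarith
      rw [div_le_iff₀ hε1] at h5
      linarith
    have e : Real.sqrt θ * (Real.sqrt y1 + Real.sqrt y2) =
      Real.sqrt θ * Real.sqrt y1 + Real.sqrt θ * Real.sqrt y2 := by ring
    linarith
  have hRc := Rw_cont γ h0 hπ
  have hYHc := YH_cont cK CS0 hS δ C5 1 T κ
  have hEc : Continuous (fun u : ℝ => T * (a * (u + 1) + b)) := by fun_prop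
  have m4' : (2 / (Real.sqrt Real.pi * (β * ℒ))) *
        (∫ u in (0 : ℝ)..(β * ℒ), Rw γ (u / (β * ℒ)) * YY u) ≤
      T / (2 * Real.pi) * ℒ * (2 * β * J + ε1) := by
    have e1 : ∫ u in (0 : ℝ)..(β * ℒ), Rw γ (u / (β * ℒ)) * YY u =
        θ * (∫ u in (0 : ℝ)..(β * ℒ), Rw γ (u / (β * ℒ)) * YH cK δ C5 1 T κ u) +
        ∫ u in (0 : ℝ)..(β * ℒ), Rw γ (u / (β * ℒ)) * (T * (a * (u + 1) + b)) := by
      rw [← intervalIntegral.integral_const_mul, ← intervalIntegral.integral_add]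
      · refine intervalIntegral.integral_congr (fun u _ => ?_)
        simp only [hYYu]
        ring
      · exact ((hRc.comp (continuous_id.div_const (β * ℒ))).mul hYHc).const_mul θ
          |>.intervalIntegrable _ _
      · exact ((hRc.comp (continuous_id.div_const (β * ℒ))).mul hEc).intervalIntegrable _ _
    rw [e1]
    have e2 := mul_le_mul_of_nonneg_left m4 hθ0
    have e3 : θ * (T / (2 * Real.pi) * (2 * ℒ) * (2 * (β / 2) * J + ε1 / 16)) ≤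
        T / (2 * Real.pi) * ℒ * (2 * β * J + ε1 / 2) := by
      have e4 : θ * (T / (2 * Real.pi) * (2 * ℒ) * (2 * (β / 2) * J + ε1 / 16)) =
          T / (2 * Real.pi) * ℒ * (θ * (2 * β * J) + θ * (ε1 / 8)) := by ring
      rw [e4]
      refine mul_le_mul_of_nonneg_left ?_ (by positivity)
      have e5 : θ * (2 * β * J) = 2 * β * J + 2 * δ * (2 * β * J) := by rw [hθ]; ring
      have e6 : θ * (ε1 / 8) ≤ 2 * (ε1 / 8) := mul_le_mul_of_nonneg_right hθ3 (by positivity)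
      linarith
    have e7 := hLab T ℒ hT0.le hℒab
    calc _ = θ * ((2 / (Real.sqrt Real.pi * (β * ℒ))) *
        (∫ u in (0 : ℝ)..(β * ℒ), Rw γ (u / (β * ℒ)) * YH cK δ C5 1 T κ u)) +
        (2 / (Real.sqrt Real.pi * (β * ℒ))) *
        (∫ u in (0 : ℝ)..(β * ℒ), Rw γ (u / (β * ℒ)) * (T * (a * (u + 1) + b))) := by ring
      _ ≤ T / (2 * Real.pi) * ℒ * (2 * β * J + ε1 / 2) + T / (2 * Real.pi) * ℒ * (ε1 / 2) :=
          add_le_add (e2.trans e3) e7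
      _ = _ := by ring
  -- the mean square
  have hW1 : 0 ≤ 1 / W := by positivity
  have m1 : ∀ u ∈ Set.Icc 0 (β * ℒ), ∫ t : ℝ, ∑ p ∈ E, (wF p / W) *
      ‖∑' n : ℕ, aH (chiZ p.1 p.2) n * ((Real.sqrt n : ℂ)⁻¹ * bt T u t (Real.log n))‖ ^ 2 ≤
      YY u := by
    intro u hu
    have h1 := hint X Y N T κ u ((le_max_left _ _).trans hXX)
      ((mul_le_mul_of_nonneg_right (le_max_left _ _) hX0.le).trans hXY) hT4 (by linarith) hκT1 hT1
      p4 hu.1 (hu.2.trans hβℒX) hNX (hN u hu) E hE hWE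
    rw [← hWd] at h1
    have e1 : ∀ t : ℝ, ∑ p ∈ E, (wF p / W) *
        ‖∑' n : ℕ, aH (chiZ p.1 p.2) n * ((Real.sqrt n : ℂ)⁻¹ * bt T u t (Real.log n))‖ ^ 2 =
        (1 / W) * ∑ p ∈ E, wF p *
        ‖∑' n : ℕ, aH (chiZ p.1 p.2) n * bn T u t n‖ ^ 2 := by
      intro t
      rw [Finset.mul_sum]
      refine Finset.sum_congr rfl (fun p _ => ?_)
      unfold bn
      ring
    simp_rw [e1]
    rw [integral_const_mul]
    have h2 := mul_le_mul_of_nonneg_left h1 hW1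
    refine h2.trans (le_of_eq ?_)
    rw [hYYu, hθ]
    field_simp
  have m3 : IntervalIntegrable YY volume 0 (β * ℒ) := by
    rw [hYY]
    exact ((hYHc.const_mul θ).add hEc).intervalIntegrable _ _
  -- the family
  have hmem : ∀ p ∈ E, (1 : ℝ) ≤ ‖tc p.1‖ ∧ GoodD 2 A ‖tc p.1‖ (LH (chiZ p.1 p.2))
      (aH (chiZ p.1 p.2)) ∧ Real.log (‖tc p.1‖ * T) ≤ ℒ ∧
      ℒ * (1 - ε1) ≤ Real.log (‖tc p.1‖ * T) := by
    intro p hp
    obtain ⟨hq0, hXq, hqY, hpr, him⟩ := (fs_mem X Y p).1 (hE hp)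
    have hHC := hc_of_prim p.1 hq0 p.2 hpr him
    have hQ1 : (1 : ℝ) ≤ ‖tc p.1‖ := one_le_norm_tc hq0
    have hQ0 : 0 < ‖tc p.1‖ := by linarith
    have hn := ahx_nrm_eq p.1
    have hlogn : Real.log (nrm p.1 : ℕ) = 2 * Real.log ‖tc p.1‖ := by
      rw [hn, Real.log_pow]
      push_cast
      ring
    have hnX : (X : ℝ) ≤ (nrm p.1 : ℕ) := by exact_mod_cast hXq.le
    have hnY : ((nrm p.1 : ℕ) : ℝ) ≤ Y := by exact_mod_cast hqY
    have hl1 := Real.log_le_log hX0 hnX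
    have hl2 := Real.log_le_log (lt_of_lt_of_le hX0 hnX) hnY
    have hl3 : Real.log (‖tc p.1‖ * T) = Real.log ‖tc p.1‖ + Real.log T :=
      Real.log_mul hQ0.ne' hT0.ne'
    refine ⟨hQ1, (hgood _ _ hHC).2.2.2, ?_, ?_⟩
    · rw [hl3, hℒe]
      linarith
    · rw [hl3]
      have h1 : η * Real.log X ≤ 2 * (ε1 * ℒ) := by
        have h2 : Real.log X ≤ 2 * ℒ := by
          have : 0 ≤ Real.log T := Real.log_nonneg hT1
          linarith
        calc η * Real.log X ≤ ε1 * (2 * ℒ) := mul_le_mul hηe h2 hlX0 hε1.le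
          _ = _ := by ring
      have h3 : ℒ * (1 - ε1) = ℒ - ε1 * ℒ := by ring
      rw [h3]
      have h4 : ℒ ≤ 1 / 2 * ((1 + η) * Real.log X) + Real.log T := by
        rw [hℒe]; linarith
      have h5 : (1 + η) * Real.log X = Real.log X + η * Real.log X := by ring
      linarith
  have hwF : ∀ p : Σ q : ZI, MulChar (RQ q) ℂ, 0 ≤ wF p := by
    intro p
    unfold wF
    positivity
  have hω0 : ∀ p : Σ q : ZI, MulChar (RQ q) ℂ, 0 ≤ wF p / W := fun p =>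
    div_nonneg (hwF p) hW0.le
  have hWone : ∑ p ∈ E, wF p / W = 1 := by
    rw [← Finset.sum_div, ← hWd]
    exact div_self hW0.ne'
  have hdata : ∀ p ∈ E, 0 ≤ wF p / W ∧ (1 : ℝ) ≤ ‖tc p.1‖ ∧
      GoodD 2 A ‖tc p.1‖ (LH (chiZ p.1 p.2)) (aH (chiZ p.1 p.2)) ∧
      Real.log (‖tc p.1‖ * T) ≤ ℒ := by
    intro p hp
    obtain ⟨g1, g2, g3, g4⟩ := hmem p hp
    exact ⟨hω0 p, g1, g2, g3⟩
  have k1 := hfam (E) (fun p => wF p / W) (fun p => ‖tc p.1‖)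
    (fun p => LH (chiZ p.1 p.2)) (fun p => aH (chiZ p.1 p.2)) T κ (β * ℒ) ℒ (θ * y1 + a) (θ * y2 + b)
    YY hdata p1 hκ8 p3 hΛ1 hℒ1 p5' (by positivity) (by positivity) m1 m2 m3
  have k2 := hfam' (E) (fun p => wF p / W) (fun p => ‖tc p.1‖)
    (fun p => LH (chiZ p.1 p.2)) (fun p => aH (chiZ p.1 p.2)) T κ (β * ℒ) ℒ (θ * y1 + a) (θ * y2 + b)
    YY hdata p1 hκ8 p3 hΛ1 hℒ1 p5' (by positivity) (by positivity) m1 m2 m3
  obtain ⟨SN, hSN⟩ : ∃ SN : ℝ, SN = ∑ p ∈ E, (wF p / W) *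
    (NN (LH (chiZ p.1 p.2)) T (2 * T) : ℝ) := ⟨_, rfl⟩
  -- lower bound for the number of zeros
  have hNlow : T / (2 * Real.pi) * ℒ * (1 - ε1) - C2 * (T + κ * ℒ) ≤ SN / 2 := by
    have hpt : ∀ p ∈ E,
        2 * (T / (2 * Real.pi) * ℒ * (1 - ε1) - C2 * (T + κ * ℒ)) ≤
        (NN (LH (chiZ p.1 p.2)) T (2 * T) : ℝ) := by
      intro p hp
      obtain ⟨g1, g2, g3, g4⟩ := hmem p hp
      have hl := hlow ‖tc p.1‖ (LH (chiZ p.1 p.2)) (aH (chiZ p.1 p.2)) g1 g2 T κ p1 hκ8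
      refine le_trans ?_ hl
      have hn : 0 ≤ Real.log (‖tc p.1‖ * T) :=
        Real.log_nonneg (one_le_mul_of_one_le_of_one_le g1 hT1)
      have a3 : T * Real.log (‖tc p.1‖ * T) ^ 2 * Real.exp (-κ ^ 2 / 2) ≤ T := by
        have b1 : Real.log (‖tc p.1‖ * T) ^ 2 ≤ ℒ ^ 2 := pow_le_pow_left₀ hn g3 2
        have b2 : Real.log (‖tc p.1‖ * T) ^ 2 * Real.exp (-κ ^ 2 / 2) ≤ 1 :=
          (mul_le_mul_of_nonneg_right b1 (Real.exp_pos _).le).trans p6'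
        calc _ = T * (Real.log (‖tc p.1‖ * T) ^ 2 * Real.exp (-κ ^ 2 / 2)) := by ring
          _ ≤ T * 1 := mul_le_mul_of_nonneg_left b2 hT0.le
          _ = T := mul_one T
      have a4 : κ * Real.log (‖tc p.1‖ * T) ≤ κ * ℒ := mul_le_mul_of_nonneg_left g3 hκ0
      have a5 : C2 * (T + κ * Real.log (‖tc p.1‖ * T) +
          T * Real.log (‖tc p.1‖ * T) ^ 2 * Real.exp (-κ ^ 2 / 2)) ≤
          2 * C2 * (T + κ * ℒ) := by
        have hκℒ : 0 ≤ κ * ℒ := by positivity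
        calc _ ≤ C2 * (T + κ * ℒ + T) := mul_le_mul_of_nonneg_left (by linarith) hC2.le
          _ ≤ C2 * (2 * (T + κ * ℒ)) := mul_le_mul_of_nonneg_left (by linarith) hC2.le
          _ = _ := by ring
      have a6 : T / (2 * Real.pi) * (2 * (ℒ * (1 - ε1))) ≤
          T / (2 * Real.pi) * (2 * Real.log (‖tc p.1‖ * T)) :=
        mul_le_mul_of_nonneg_left (by linarith) (by positivity)
      have a7 : T / (2 * Real.pi) * (2 * (ℒ * (1 - ε1))) =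
          2 * (T / (2 * Real.pi) * ℒ * (1 - ε1)) := by ring
      linarith
    have hsum : ∑ p ∈ E, (wF p / W) *
        (2 * (T / (2 * Real.pi) * ℒ * (1 - ε1) - C2 * (T + κ * ℒ))) ≤ SN := by
      rw [hSN]
      exact Finset.sum_le_sum fun p hp => mul_le_mul_of_nonneg_left (hpt p hp) (hω0 p)
    rw [← Finset.sum_mul, hWone, one_mul] at hsum
    linarith
  have core : ∀ (D SM : ℝ), 0 < D → D ≤ CC →
      SM ≤ (∑ p ∈ E, (wF p / W)) * (2 * ℒ) ^ 2 * Rw γ 0 * T /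
          (2 * Real.pi * (β * ℒ)) +
        (2 / (Real.sqrt Real.pi * (β * ℒ))) *
          (∫ u in (0 : ℝ)..(β * ℒ), Rw γ (u / (β * ℒ)) * YY u) +
        D * ((∑ p ∈ E, (wF p / W)) *
          (ℒ ^ 2 * κ / (β * ℒ) + ℒ * T / (β * ℒ) + κ * ℒ) +
          Real.sqrt (∑ p ∈ E, (wF p / W)) * ℒ * T *
            (Real.sqrt (θ * y1 + a) + Real.sqrt (θ * y2 + b)) / (β * ℒ)) →
      W * SM ≤ (2 * Rw γ 0 / β + β * J + ε) *
        ∑ p ∈ E, wF p * (NN (LH (chiZ p.1 p.2)) T (2 * T) : ℝ) := by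
    intro D SM hD hDC hSM
    rw [hWone, Real.sqrt_one, one_mul, one_mul, one_mul] at hSM
    have h1 : SM ≤ (4 * Rw γ 0 / β + 2 * β * J + 2 * ε) * (SN / 2) := by
      refine hnum T ℒ κ (Real.sqrt (θ * y1 + a) + Real.sqrt (θ * y2 + b)) _ SM _ hT0 hℒL0 hκ0 hκ1 m5'
        m4' ?_ hNlow
      refine hSM.trans ?_
      have hb : 0 ≤ (ℒ ^ 2 * κ / (β * ℒ) + ℒ * T / (β * ℒ) + κ * ℒ) +
          ℒ * T * (Real.sqrt (θ * y1 + a) + Real.sqrt (θ * y2 + b)) / (β * ℒ) := by positivity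
      have := mul_le_mul_of_nonneg_right hDC hb
      have e : (2 * ℒ) ^ 2 * Rw γ 0 * T = ℒ ^ 2 * (4 * Rw γ 0) * T := by ring
      rw [e]
      linarith
    have h2 : (4 * Rw γ 0 / β + 2 * β * J + 2 * ε) * (SN / 2) =
        (2 * Rw γ 0 / β + β * J + ε) * SN := by ring
    rw [h2] at h1
    have h3 : W * SN = ∑ p ∈ E, wF p * (NN (LH (chiZ p.1 p.2)) T (2 * T) : ℝ) := by
      rw [hSN, Finset.mul_sum]
      refine Finset.sum_congr rfl (fun p _ => ?_)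
      field_simp
    calc W * SM ≤ W * ((2 * Rw γ 0 / β + β * J + ε) * SN) :=
          mul_le_mul_of_nonneg_left h1 hW0.le
      _ = (2 * Rw γ 0 / β + β * J + ε) * (W * SN) := by ring
      _ = _ := by rw [h3]
  refine ⟨hW0, ?_, ?_⟩
  · have := core C1 _ hC1 hCC1 k1
    refine le_trans (le_of_eq ?_) this
    rw [Finset.mul_sum]
    refine Finset.sum_congr rfl (fun p _ => ?_)
    field_simp
  · have := core C1' _ hC1' hCC2 k2
    refine le_trans (le_of_eq ?_) this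
    rw [Finset.mul_sum]
    refine Finset.sum_congr rfl (fun p _ => ?_)
    field_simp

end H385
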