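import Pool.Agent.H385R9.AHDefs

/-!
TEAM Q4, project AH (helper385): copies of elementary lemmas (keeps the import chain short).
-/

open Complex Filter Topology Set MeasureTheory

set_option maxHeartbeats 4000000

namespace H385

open Pool.Agent.H304R3.HK (tc HC CS bb LamK psi bH aH LH tc_star_mul one_le_norm_tc)

theorem ahx_nrm_eq (q : ZI) : ((nrm q : ℕ) : ℝ) = ‖tc q‖ ^ 2 := by
  rw [tc_star_mul]
  have h : 0 ≤ Zsqrtd.norm q := by
    have := tc_star_mul q
    have h2 : (0 : ℝ) ≤ ((q.norm : ℤ) : ℝ) := by rw [← this]; positivity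
    exact_mod_cast h2
  unfold nrm
  rw [← Int.cast_natCast, Int.natAbs_of_nonneg h]

theorem ahx_height (L0 η : ℝ) (hη : 0 < η) : ∃ C0 : ℝ, 1 ≤ C0 ∧ ∀ (Q : ℝ) (T : ℝ), 1 ≤ Q →
    C0 * (1 + Real.sqrt (Real.log Q)) ≤ T → L0 ≤ Real.log (Q * T) ∧ 1 ≤ T ∧
      4 * Real.sqrt (Real.log (Q * T)) ≤ η * T := by
  -- `√(log T) ≤ (η/8) T` for large `T`
  have h1 : ∃ T1 : ℝ, ∀ T : ℝ, T1 ≤ T → Real.sqrt (Real.log T) ≤ η / 8 * T := by
    refine ⟨max 1 (64 / η ^ 2), fun T hT => ?_⟩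
    have hT1 : 1 ≤ T := (le_max_left _ _).trans hT
    have hT2 : 64 / η ^ 2 ≤ T := (le_max_right _ _).trans hT
    have hlog : Real.log T ≤ T := by
      have := Real.log_le_sub_one_of_pos (show 0 < T by linarith)
      linarith
    rw [Real.sqrt_le_left (by positivity)]
    rw [div_le_iff₀ (by positivity)] at hT2
    have h2 : (η / 8 * T) ^ 2 = (T * η ^ 2) * T / 64 := by ring
    rw [h2]
    have h3 : 64 * T ≤ (T * η ^ 2) * T := mul_le_mul_of_nonneg_right hT2 (by linarith)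
    linarith
  obtain ⟨T1, hT1⟩ := h1
  refine ⟨max (max 1 T1) (max (Real.exp L0) (8 / η)), le_max_of_le_left (le_max_left _ _), ?_⟩
  intro Q T hQ hT
  set C0 := max (max 1 T1) (max (Real.exp L0) (8 / η)) with hC0
  have hC01 : 1 ≤ C0 := le_max_of_le_left (le_max_left _ _)
  have hs := Real.sqrt_nonneg (Real.log Q)
  have hTC : C0 ≤ T := by
    refine le_trans ?_ hT
    nlinarith
  have hT1' : T1 ≤ T := ((le_max_right _ _).trans (le_max_left _ _)).trans hTC
  have hT2 : 1 ≤ T := hC01.trans hTC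
  have hTe : Real.exp L0 ≤ T := ((le_max_left _ _).trans (le_max_right _ _)).trans hTC
  have hC08 : 8 / η ≤ C0 := (le_max_right _ _).trans (le_max_right _ _)
  have hlogq : 0 ≤ Real.log Q := Real.log_nonneg hQ
  have hlogT : 0 ≤ Real.log T := Real.log_nonneg hT2
  have hl : Real.log (Q * T) = Real.log Q + Real.log T :=
    Real.log_mul (by linarith) (by linarith)
  refine ⟨?_, hT2, ?_⟩
  · rw [hl]
    have : L0 ≤ Real.log T := by
      rw [Real.le_log_iff_exp_le (by linarith)]; exact hTe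
    linarith
  · rw [hl]
    have h2 : Real.sqrt (Real.log Q + Real.log T) ≤ Real.sqrt (Real.log Q) +
        Real.sqrt (Real.log T) := by
      have a1 := Real.sqrt_nonneg (Real.log T)
      rw [Real.sqrt_le_left (by positivity)]
      have e : (Real.sqrt (Real.log Q) + Real.sqrt (Real.log T)) ^ 2 = Real.log Q + Real.log T +
          2 * (Real.sqrt (Real.log Q) * Real.sqrt (Real.log T)) := by
        rw [add_sq, Real.sq_sqrt hlogq, Real.sq_sqrt hlogT]; ring
      rw [e]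
      have := mul_nonneg hs a1
      linarith
    have h3 := hT1 T hT1'
    have h4 : Real.sqrt (Real.log Q) ≤ η / 8 * T := by
      have h5 : 8 / η * Real.sqrt (Real.log Q) ≤ T := by
        calc 8 / η * Real.sqrt (Real.log Q) ≤ C0 * (1 + Real.sqrt (Real.log Q)) := by
              refine mul_le_mul hC08 (by linarith) hs (by linarith)
          _ ≤ T := hT
      calc Real.sqrt (Real.log Q) = η / 8 * (8 / η * Real.sqrt (Real.log Q)) := by field_simp
        _ ≤ _ := by gcongr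
    linarith

/-- parameters -/
theorem ahx_param (β ℒ T κ : ℝ) (hβ1 : β < 2) (hℒ : 1 ≤ ℒ) (hκ : κ = 4 * Real.sqrt ℒ)
    (hT : T ≤ Real.exp ℒ) : 3 ≤ κ ∧ κ ^ 2 = 16 * ℒ ∧ T ≤ Real.exp (κ ^ 2 / 2) ∧
      T ≤ Real.exp (κ ^ 2) ∧ ℒ ^ 2 * Real.exp (β * ℒ - κ ^ 2 / 2) ≤ Real.exp (-(β * ℒ)) ∧
      ℒ ^ 2 * Real.exp (-κ ^ 2 / 2) ≤ 1 := by
  have hs : 1 ≤ Real.sqrt ℒ := by rw [Real.one_le_sqrt]; exact hℒ
  have hκ2 : κ ^ 2 = 16 * ℒ := by
    rw [hκ, mul_pow, Real.sq_sqrt (by linarith)]; ring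
  have hq : ℒ ^ 2 ≤ Real.exp (2 * ℒ) := by
    have h1 : ℒ ≤ Real.exp ℒ := by
      have := Real.add_one_le_exp ℒ
      linarith
    have h2 : Real.exp (2 * ℒ) = Real.exp ℒ ^ 2 := by rw [← Real.exp_nat_mul]; norm_num
    rw [h2]
    exact pow_le_pow_left₀ (by linarith) h1 2
  refine ⟨by rw [hκ]; linarith, hκ2, ?_, ?_, ?_, ?_⟩
  · refine hT.trans (Real.exp_le_exp.mpr ?_)
    rw [hκ2]; linarith
  · refine hT.trans (Real.exp_le_exp.mpr ?_)
    rw [hκ2]; linarith
  · refine (mul_le_mul_of_nonneg_right hq (Real.exp_pos _).le).trans ?_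
    rw [← Real.exp_add]
    refine Real.exp_le_exp.mpr ?_
    rw [hκ2]
    have : β * ℒ ≤ 2 * ℒ := mul_le_mul_of_nonneg_right hβ1.le (by linarith)
    linarith
  · refine (mul_le_mul_of_nonneg_right hq (Real.exp_pos _).le).trans ?_
    rw [← Real.exp_add, ← Real.exp_zero]
    refine Real.exp_le_exp.mpr ?_
    have e : -κ ^ 2 / 2 = -(8 * ℒ) := by
      rw [show -κ ^ 2 / 2 = -(κ ^ 2) / 2 by ring, hκ2]; ring
    rw [e]; linarith

theorem ahx_up (a b x η : ℝ) (h1 : a ≤ (1 + η) * x) (h2 : b ≤ η * x) :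
    1 / 2 * a + b ≤ (1 / 2 + 3 / 2 * η) * x := by linarith

end H385
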